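import Pool.Agent.Helper99.FP.Fej

set_option autoImplicit false

/-!
Trigonometric majorants and minorants of arcs in Fejer pieces: the theorems.
-/

namespace Pool.Agent.Helper99.FP

open Finset Pool.Agent.Helper7.SC Pool.Agent.Helper99.SC

lemma ph_neg (m : ℕ) (h : ℤ) : ph m (-h) = ph m h := by
  unfold ph
  congr 2
  refine card_nbij' (fun p => (p.2, p.1)) (fun p => (p.2, p.1)) ?_ ?_ ?_ ?_
  · intro p hp
    simp only [coe_filter, mem_product, mem_range, Set.mem_ofPred_eq] at hp ⊢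
    omega
  · intro p hp
    simp only [coe_filter, mem_product, mem_range, Set.mem_ofPred_eq] at hp ⊢
    omega
  · intro p _; rfl
  · intro p _; rfl

lemma co_neg (N L : ℕ) (x0 : ℝ) (h : ℤ) : co N L x0 (-h) = (starRingEnd ℂ) (co N L x0 h) := by
  unfold co
  rw [map_mul, map_sum]
  congr 1
  · simp
  · refine sum_congr rfl fun i _ => ?_
    rw [e_conj]
    congr 1
    push_cast
    ring

lemma Fj_int (m : ℕ) (z : ℝ) (n : ℤ) : Fj m (n + z) = Fj m z := by
  unfold Fj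
  congr 3
  refine sum_congr rfl fun k _ => ?_
  have h1 : (k : ℝ) * (n + z) = ((k * n : ℤ) : ℝ) + k * z := by push_cast; ring
  rw [h1, e_add, e_int, one_mul]

/-- The coefficients of the pieces. -/
noncomputable def Tc (N L : ℕ) (x0 : ℝ) (s : ℕ) (h : ℤ) : ℂ :=
  ((ph (2 ^ s) h - ph (2 ^ (s - 1)) h : ℝ) : ℂ) * co N L x0 h

/-- The pieces. -/
noncomputable def tt (N L : ℕ) (x0 : ℝ) (s : ℕ) (y : ℝ) : ℝ :=
  sg N L x0 (2 ^ s) y - sg N L x0 (2 ^ (s - 1)) y

lemma Tc_zero (N L : ℕ) (x0 : ℝ) (s : ℕ) : Tc N L x0 s 0 = 0 := by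
  unfold Tc
  rw [ph_zero (by positivity), ph_zero (by positivity)]
  simp

lemma Tc_neg (N L : ℕ) (x0 : ℝ) (s : ℕ) (h : ℤ) :
    Tc N L x0 s (-h) = (starRingEnd ℂ) (Tc N L x0 s h) := by
  unfold Tc
  rw [ph_neg, ph_neg, co_neg, map_mul, Complex.conj_ofReal]

lemma Tc_supp (N L : ℕ) (x0 : ℝ) (s : ℕ) (h : ℤ) (hh : (2 : ℤ) ^ s ≤ |h|) :
    Tc N L x0 s h = 0 := by
  unfold Tc
  have h1 : ((2 ^ s : ℕ) : ℤ) ≤ |h| := by exact_mod_cast hh
  have h2 : ((2 ^ (s - 1) : ℕ) : ℤ) ≤ |h| := by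
    refine le_trans ?_ h1
    exact_mod_cast Nat.pow_le_pow_right (by norm_num) (Nat.sub_le s 1)
  rw [ph_eq_zero h1, ph_eq_zero h2]
  simp

lemma ph_diff {s : ℕ} (hs : 1 ≤ s) (h : ℤ) :
    |ph (2 ^ s) h - ph (2 ^ (s - 1)) h| ≤ 2 * |(h : ℝ)| / 2 ^ s := by
  have h1 := ph_le_one (2 ^ s) h
  have h2 := ph_le_one (2 ^ (s - 1)) h
  have h3 := one_sub_ph_le (m := 2 ^ s) (by positivity) h
  have h4 := one_sub_ph_le (m := 2 ^ (s - 1)) (by positivity) h
  push_cast at h3 h4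
  have h5 : |(h : ℝ)| / 2 ^ (s - 1) = 2 * |(h : ℝ)| / 2 ^ s := by
    obtain ⟨r, rfl⟩ : ∃ r, s = r + 1 := ⟨s - 1, by omega⟩
    simp only [Nat.add_sub_cancel]
    rw [pow_succ]
    field_simp
  have h6 : |(h : ℝ)| / 2 ^ s ≤ 2 * |(h : ℝ)| / 2 ^ s := by
    apply div_le_div_of_nonneg_right _ (by positivity)
    have := abs_nonneg (h : ℝ)
    linarith
  rw [h5] at h4
  rw [abs_le]
  constructor <;> linarith

lemma Tc_bound {N L : ℕ} (x0 : ℝ) {s S : ℕ} (hs : 1 ≤ s) (hsS : s ≤ S) (hN : 2 * 2 ^ S ≤ N)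
    (h : ℤ) : ‖Tc N L x0 s h‖ ≤ 1 / 2 ^ s := by
  by_cases h0 : h = 0
  · subst h0
    rw [Tc_zero, norm_zero]
    positivity
  by_cases hh : (2 : ℤ) ^ s ≤ |h|
  · rw [Tc_supp N L x0 s h hh, norm_zero]
    positivity
  push Not at hh
  have h1 : |(h : ℝ)| ≤ 2 ^ s := by
    have : ((|h| : ℤ) : ℝ) ≤ ((2 ^ s : ℤ) : ℝ) := by exact_mod_cast hh.le
    rw [Int.cast_abs] at this
    push_cast at this
    exact this
  have h2 : (2 : ℝ) ^ s ≤ 2 ^ S := pow_le_pow_right₀ (by norm_num) hsS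
  have h3 : 2 * |(h : ℝ)| ≤ N := by
    have : (2 : ℝ) * 2 ^ S ≤ N := by exact_mod_cast hN
    linarith
  have h4 := co_bound (L := L) x0 h0 h3
  have h5 := ph_diff hs h
  have hpos : 0 < |(h : ℝ)| := abs_pos.mpr (by exact_mod_cast h0)
  unfold Tc
  rw [norm_mul, Complex.norm_real, Real.norm_eq_abs]
  calc |ph (2 ^ s) h - ph (2 ^ (s - 1)) h| * ‖co N L x0 h‖
      ≤ (2 * |(h : ℝ)| / 2 ^ s) * (1 / (2 * |(h : ℝ)|)) :=
        mul_le_mul h5 h4 (norm_nonneg _) (by positivity)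
    _ = 1 / 2 ^ s := by
        field_simp

lemma tt_eq (N L : ℕ) (x0 : ℝ) (s : ℕ) (y : ℝ) :
    (tt N L x0 s y : ℂ) = ∑ h ∈ Icc (-(2 : ℤ) ^ s) (2 ^ s), Tc N L x0 s h * e (h * y) := by
  unfold tt Tc
  rw [Complex.ofReal_sub, sg_eq, sg_eq]
  have h1 : Icc (-((2 ^ (s - 1) : ℕ) : ℤ)) ((2 ^ (s - 1) : ℕ) : ℤ) ⊆ Icc (-(2 : ℤ) ^ s) (2 ^ s) := by
    apply Icc_subset_Icc
    · have : ((2 ^ (s - 1) : ℕ) : ℤ) ≤ ((2 ^ s : ℕ) : ℤ) := by
        exact_mod_cast Nat.pow_le_pow_right (by norm_num) (Nat.sub_le s 1)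
      push_cast at this ⊢
      linarith
    · have : ((2 ^ (s - 1) : ℕ) : ℤ) ≤ ((2 ^ s : ℕ) : ℤ) := by
        exact_mod_cast Nat.pow_le_pow_right (by norm_num) (Nat.sub_le s 1)
      push_cast at this ⊢
      linarith
  have h2 : ∑ h ∈ Icc (-((2 ^ (s - 1) : ℕ) : ℤ)) ((2 ^ (s - 1) : ℕ) : ℤ),
      (ph (2 ^ (s - 1)) h : ℂ) * co N L x0 h * e (h * y) =
      ∑ h ∈ Icc (-(2 : ℤ) ^ s) (2 ^ s), (ph (2 ^ (s - 1)) h : ℂ) * co N L x0 h * e (h * y) := by
    apply sum_subset h1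
    intro h _ hh
    rw [ph_eq_zero]
    · simp
    · rw [mem_Icc] at hh
      by_contra hcon
      push Not at hcon
      rw [abs_lt] at hcon
      exact hh ⟨hcon.1.le, hcon.2.le⟩
  rw [h2]
  have h3 : (Icc (-((2 ^ s : ℕ) : ℤ)) ((2 ^ s : ℕ) : ℤ)) = Icc (-(2 : ℤ) ^ s) (2 ^ s) := by
    push_cast
    rfl
  rw [h3, ← sum_sub_distrib]
  refine sum_congr rfl fun h _ => ?_
  push_cast
  ring

lemma tt_bound {N L : ℕ} (x0 : ℝ) {s S : ℕ} (hsS : s ≤ S) (hN : 2 * 2 ^ S ≤ N) (hL : L ≤ N)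
    (y : ℝ) : |tt N L x0 s y| ≤ 1 := by
  have h1 : 2 ^ s ≤ N := by
    have : 2 ^ s ≤ 2 ^ S := Nat.pow_le_pow_right (by norm_num) hsS
    omega
  have h2 : 2 ^ (s - 1) ≤ N := by
    have : 2 ^ (s - 1) ≤ 2 ^ s := Nat.pow_le_pow_right (by norm_num) (Nat.sub_le s 1)
    omega
  have a1 := sg_nonneg N L x0 (2 ^ s) y
  have a2 := sg_le_one (m := 2 ^ s) (by positivity) h1 hL x0 y
  have a3 := sg_nonneg N L x0 (2 ^ (s - 1)) y
  have a4 := sg_le_one (m := 2 ^ (s - 1)) (by positivity) h2 hL x0 y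
  unfold tt
  rw [abs_le]
  constructor <;> linarith

lemma tt_sum (N L : ℕ) (x0 : ℝ) (S : ℕ) (y : ℝ) :
    (L : ℝ) / N + ∑ s ∈ Icc 1 S, tt N L x0 s y = sg N L x0 (2 ^ S) y := by
  induction S with
  | zero =>
    rw [pow_zero, sg_one]
    simp
  | succ S ih =>
    rw [sum_Icc_succ_top (by omega), ← add_assoc, ih]
    unfold tt
    simp

/-- Majorant of an arc in Fejer pieces. -/
theorem major (u len : ℝ) (h0 : 0 ≤ len) (h1 : len ≤ 1) (S : ℕ) (η : ℝ) (hη : 0 < η) :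
    ∃ (μ : ℝ) (T : ℕ → ℤ → ℂ) (t : ℕ → ℝ → ℝ),
      len ≤ μ ∧ μ ≤ len + 3 * η + 1 / (4 * 2 ^ S * η ^ 2) ∧
      (∀ s, T s 0 = 0) ∧ (∀ s h, T s (-h) = (starRingEnd ℂ) (T s h)) ∧
      (∀ s h, (2 : ℤ) ^ s ≤ |h| → T s h = 0) ∧
      (∀ s, 1 ≤ s → s ≤ S → ∀ h, ‖T s h‖ ≤ 1 / 2 ^ s) ∧
      (∀ s y, (t s y : ℂ) = ∑ h ∈ Icc (-(2 : ℤ) ^ s) (2 ^ s), T s h * e (h * y)) ∧
      (∀ s ≤ S, ∀ y, |t s y| ≤ 1) ∧
      ∀ y, (if Int.fract (y - u) < len then (1 : ℝ) else 0) ≤ μ + ∑ s ∈ Icc 1 S, t s y := by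
  set N : ℕ := 2 * 2 ^ S + ⌈1 / η⌉₊ with hN
  have hN1 : 2 * 2 ^ S ≤ N := by omega
  have hN0 : 0 < N := by have : 0 < 2 ^ S := by positivity
                         omega
  have hNr : (0 : ℝ) < N := by exact_mod_cast hN0
  have hN2 : 1 / (N : ℝ) ≤ η := by
    have e1 : 1 / η ≤ (N : ℝ) := by
      have e2 := Nat.le_ceil (1 / η)
      have e3 : (⌈1 / η⌉₊ : ℝ) ≤ (N : ℝ) := by exact_mod_cast (by omega : ⌈1 / η⌉₊ ≤ N)
      linarith
    rw [div_le_iff₀ hNr]
    rw [div_le_iff₀ hη] at e1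
    linarith
  set L : ℕ := min N ⌈(len + 2 * η) * N⌉₊ with hL
  have hLN : L ≤ N := min_le_left _ _
  have hx0 : 0 ≤ (len + 2 * η) * N := by positivity
  have hL1 : (L : ℝ) / N ≤ len + 3 * η := by
    have e1 : (L : ℝ) ≤ (⌈(len + 2 * η) * N⌉₊ : ℝ) := by exact_mod_cast min_le_right _ _
    have e2 := Nat.ceil_lt_add_one hx0
    have e3 : (L : ℝ) / N ≤ ((len + 2 * η) * N + 1) / N :=
      div_le_div_of_nonneg_right (by linarith) hNr.le
    have e4 : ((len + 2 * η) * N + 1) / N = len + 2 * η + 1 / N := by field_simp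
    linarith
  have hL2 : L = N ∨ len + 2 * η ≤ (L : ℝ) / N := by
    rcases min_choice N ⌈(len + 2 * η) * N⌉₊ with h | h
    · left; rw [hL, h]
    · right
      rw [hL, h, le_div_iff₀ hNr]
      exact Nat.le_ceil _
  have hL3 : len ≤ (L : ℝ) / N := by
    rcases hL2 with h | h
    · rw [h, div_self hNr.ne']; exact h1
    · linarith
  set x0 : ℝ := u - η with hx0'
  set κ : ℝ := 1 / (4 * 2 ^ S * η ^ 2) with hκ
  have hκ0 : 0 ≤ κ := by positivity
  refine ⟨L / N + κ, Tc N L x0, tt N L x0, by linarith, by linarith, Tc_zero N L x0,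
    Tc_neg N L x0, Tc_supp N L x0, fun s hs hsS h => Tc_bound x0 hs hsS hN1 h, tt_eq N L x0,
    fun s hsS y => tt_bound x0 hsS hN1 hLN y, fun y => ?_⟩
  have e0 := tt_sum N L x0 S y
  have e1 : (L : ℝ) / N + κ + ∑ s ∈ Icc 1 S, tt N L x0 s y = sg N L x0 (2 ^ S) y + κ := by
    rw [← e0]; ring
  rw [e1]
  have e2 := sg_nonneg N L x0 (2 ^ S) y
  split_ifs with hy
  · have hm : 2 ^ S ≤ N := by have : 0 < 2 ^ S := by positivity
                              omega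
    have e3 := sg_full (N := N) (m := 2 ^ S) (by positivity) hm x0 y
    have e4 : sg N N x0 (2 ^ S) y - sg N L x0 (2 ^ S) y ≤ κ := by
      unfold sg
      rw [← mul_sub]
      have e5 : ∑ i ∈ range N, Fj (2 ^ S) (y - x0 - i / N) - ∑ i ∈ range L,
          Fj (2 ^ S) (y - x0 - i / N) = ∑ i ∈ Ico L N, Fj (2 ^ S) (y - x0 - i / N) := by
        rw [sum_Ico_eq_sub _ hLN]
      rw [e5]
      have e6 : ∀ i ∈ Ico L N, Fj (2 ^ S) (y - x0 - i / N) ≤ κ := by
        intro i hi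
        rw [mem_Ico] at hi
        have hLne : len + 2 * η ≤ (L : ℝ) / N := by
          rcases hL2 with h | h
          · omega
          · exact h
        have e7 : y - x0 - i / N = (⌊y - u⌋ : ℝ) + -(i / N - η - Int.fract (y - u)) := by
          have := Int.floor_add_fract (y - u)
          rw [hx0']
          linarith
        have e8 : (L : ℝ) / N ≤ i / N := div_le_div_of_nonneg_right (by exact_mod_cast hi.1) hNr.le
        have e9 : (i : ℝ) / N ≤ 1 := div_le_one_of_le₀ (by exact_mod_cast hi.2.le) hNr.le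
        have e10 := Int.fract_nonneg (y - u)
        have e11 := sin_lower (η := η) (x := i / N - η - Int.fract (y - u)) (by linarith)
          (by linarith) hη.le
        rw [e7, Fj_int]
        have e12 := Fj_tail (m := 2 ^ S) (by positivity) hη
          (x := -(i / N - η - Int.fract (y - u))) (by
            rw [show Real.pi * -(i / N - η - Int.fract (y - u)) =
              -(Real.pi * (i / N - η - Int.fract (y - u))) by ring, Real.sin_neg, abs_neg]
            exact e11.trans (le_abs_self _))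
        rw [hκ]
        push_cast at e12
        exact e12
      calc 1 / (N : ℝ) * ∑ i ∈ Ico L N, Fj (2 ^ S) (y - x0 - i / N)
          ≤ 1 / (N : ℝ) * ∑ _i ∈ Ico L N, κ :=
            mul_le_mul_of_nonneg_left (sum_le_sum e6) (by positivity)
        _ ≤ κ := by
            rw [sum_const, Nat.card_Ico, nsmul_eq_mul, ← mul_assoc]
            have : 1 / (N : ℝ) * ((N - L : ℕ) : ℝ) ≤ 1 := by
              rw [one_div, inv_mul_le_iff₀ hNr, mul_one]
              exact_mod_cast Nat.sub_le N L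
            exact mul_le_of_le_one_left hκ0 this
    linarith
  · linarith

/-- Minorant of an arc in Fejer pieces. -/
theorem minor (u len : ℝ) (h0 : 0 ≤ len) (h1 : len ≤ 1) (S : ℕ) (η : ℝ) (hη : 0 < η) :
    ∃ (μ : ℝ) (T : ℕ → ℤ → ℂ) (t : ℕ → ℝ → ℝ),
      μ ≤ len ∧ len - 3 * η - 1 / (4 * 2 ^ S * η ^ 2) ≤ μ ∧
      (∀ s, T s 0 = 0) ∧ (∀ s h, T s (-h) = (starRingEnd ℂ) (T s h)) ∧
      (∀ s h, (2 : ℤ) ^ s ≤ |h| → T s h = 0) ∧
      (∀ s, 1 ≤ s → s ≤ S → ∀ h, ‖T s h‖ ≤ 1 / 2 ^ s) ∧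
      (∀ s y, (t s y : ℂ) = ∑ h ∈ Icc (-(2 : ℤ) ^ s) (2 ^ s), T s h * e (h * y)) ∧
      (∀ s ≤ S, ∀ y, |t s y| ≤ 1) ∧
      ∀ y, μ + ∑ s ∈ Icc 1 S, t s y ≤ (if Int.fract (y - u) < len then (1 : ℝ) else 0) := by
  set N : ℕ := 2 * 2 ^ S + ⌈1 / η⌉₊ with hN
  have hN1 : 2 * 2 ^ S ≤ N := by omega
  have hN0 : 0 < N := by have : 0 < 2 ^ S := by positivity
                         omega
  have hNr : (0 : ℝ) < N := by exact_mod_cast hN0
  have hN2 : 1 / (N : ℝ) ≤ η := by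
    have e1 : 1 / η ≤ (N : ℝ) := by
      have e2 := Nat.le_ceil (1 / η)
      have e3 : (⌈1 / η⌉₊ : ℝ) ≤ (N : ℝ) := by exact_mod_cast (by omega : ⌈1 / η⌉₊ ≤ N)
      linarith
    rw [div_le_iff₀ hNr]
    rw [div_le_iff₀ hη] at e1
    linarith
  set L : ℕ := ⌊(len - 2 * η) * N⌋₊ with hL
  have hLN : L ≤ N := by
    rw [hL]
    apply Nat.floor_le_of_le
    nlinarith
  have hL1 : len - 3 * η ≤ (L : ℝ) / N := by
    have e2 := Nat.lt_floor_add_one ((len - 2 * η) * N)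
    have e3 : ((len - 2 * η) * N - 1) / N ≤ (L : ℝ) / N :=
      div_le_div_of_nonneg_right (by rw [hL]; linarith) hNr.le
    have e4 : ((len - 2 * η) * N - 1) / N = len - 2 * η - 1 / N := by field_simp
    linarith
  have hL3 : (L : ℝ) / N ≤ len := by
    rw [div_le_iff₀ hNr]
    by_cases h : 0 ≤ (len - 2 * η) * N
    · have := Nat.floor_le h
      rw [← hL] at this
      nlinarith
    · push Not at h
      have : L = 0 := by rw [hL]; exact Nat.floor_of_nonpos h.le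
      rw [this]
      simp only [Nat.cast_zero]
      positivity
  set x0 : ℝ := u + η with hx0'
  set κ : ℝ := 1 / (4 * 2 ^ S * η ^ 2) with hκ
  have hκ0 : 0 ≤ κ := by positivity
  refine ⟨L / N - κ, Tc N L x0, tt N L x0, by linarith, by linarith, Tc_zero N L x0,
    Tc_neg N L x0, Tc_supp N L x0, fun s hs hsS h => Tc_bound x0 hs hsS hN1 h, tt_eq N L x0,
    fun s hsS y => tt_bound x0 hsS hN1 hLN y, fun y => ?_⟩
  have e0 := tt_sum N L x0 S y
  have e1 : (L : ℝ) / N - κ + ∑ s ∈ Icc 1 S, tt N L x0 s y = sg N L x0 (2 ^ S) y - κ := by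
    rw [← e0]; ring
  rw [e1]
  have hm : 2 ^ S ≤ N := by have : 0 < 2 ^ S := by positivity
                            omega
  split_ifs with hy
  · have e2 := sg_le_one (m := 2 ^ S) (by positivity) hm hLN x0 y
    linarith
  · push Not at hy
    have e4 : sg N L x0 (2 ^ S) y ≤ κ := by
      unfold sg
      have e6 : ∀ i ∈ range L, Fj (2 ^ S) (y - x0 - i / N) ≤ κ := by
        intro i hi
        rw [mem_range] at hi
        have hpos : 0 ≤ (len - 2 * η) * N := by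
          by_contra h
          push Not at h
          have : L = 0 := by rw [hL]; exact Nat.floor_of_nonpos h.le
          omega
        have e7 : y - x0 - i / N = (⌊y - u⌋ : ℝ) + (Int.fract (y - u) - η - i / N) := by
          have := Int.floor_add_fract (y - u)
          rw [hx0']
          linarith
        have e8 : (i : ℝ) / N ≤ len - 2 * η := by
          rw [div_le_iff₀ hNr]
          have := Nat.floor_le hpos
          rw [← hL] at this
          have e9 : (i : ℝ) ≤ L := by exact_mod_cast hi.le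
          linarith
        have e9 : (0 : ℝ) ≤ i / N := by positivity
        have e10 := Int.fract_lt_one (y - u)
        have e11 := sin_lower (η := η) (x := Int.fract (y - u) - η - i / N) (by linarith)
          (by linarith) hη.le
        rw [e7, Fj_int]
        have e12 := Fj_tail (m := 2 ^ S) (by positivity) hη
          (x := Int.fract (y - u) - η - i / N) (e11.trans (le_abs_self _))
        rw [hκ]
        push_cast at e12
        exact e12
      calc 1 / (N : ℝ) * ∑ i ∈ range L, Fj (2 ^ S) (y - x0 - i / N)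
          ≤ 1 / (N : ℝ) * ∑ _i ∈ range L, κ :=
            mul_le_mul_of_nonneg_left (sum_le_sum e6) (by positivity)
        _ ≤ κ := by
            rw [sum_const, card_range, nsmul_eq_mul, ← mul_assoc]
            have : 1 / (N : ℝ) * (L : ℝ) ≤ 1 := by
              rw [one_div, inv_mul_le_iff₀ hNr, mul_one]
              exact_mod_cast hLN
            exact mul_le_of_le_one_left hκ0 this
    linarith

end Pool.Agent.Helper99.FP
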