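import Pool.Agent.Helper99.FP.Rb
import Pool.Agent.Helper5.FP.Defs

set_option autoImplicit false

/-!
The bound given by the Riesz products, in the form of the interface.
-/

namespace Pool.Agent.Helper99.FP

open Finset Pool.Agent.Helper5.FP

lemma pos_eq {q s K : ℕ} (hq : 1 ≤ q) (hs : s < q) (hK : s < K) :
    pos q s K = (range ((K - s - 1) / q)).image (fun j => s + q * (j + 1)) := by
  have hq0 : 0 < q := hq
  ext i
  simp only [pos, mem_filter, mem_Ico, mem_image, mem_range]
  constructor
  · rintro ⟨⟨h1, h2⟩, h3⟩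
    refine ⟨i / q - 1, ?_, ?_⟩
    · have h4 := Nat.div_add_mod i q
      have h5 : 1 ≤ i / q := (Nat.one_le_div_iff hq0).mpr h1
      have h6 : i / q ≤ (K - s - 1) / q := by
        rw [Nat.le_div_iff_mul_le hq0]
        have : i / q * q = q * (i / q) := mul_comm _ _
        omega
      omega
    · have h4 := Nat.div_add_mod i q
      have h5 : 1 ≤ i / q := (Nat.one_le_div_iff hq0).mpr h1
      rw [Nat.sub_add_cancel h5]
      omega
  · rintro ⟨j, hj, rfl⟩
    have h1 : q * (j + 1) ≤ K - s - 1 := by
      have h2 : j + 1 ≤ (K - s - 1) / q := hj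
      rw [Nat.le_div_iff_mul_le hq0] at h2
      rw [mul_comm]
      exact h2
    have h3 : q ≤ q * (j + 1) := Nat.le_mul_of_pos_right q (by omega)
    refine ⟨⟨by omega, by omega⟩, ?_⟩
    rw [Nat.add_mul_mod_self_left, Nat.mod_eq_of_lt hs]

/-- The interface. -/
theorem RB_all {b : ℕ} (hb : 2 ≤ b) (l : ℕ) : RB b l := by
  intro D q T f W hq hD hT0 _ hf hf1 hW s K B P hB hP δ X hδ0 hδ1 hX
  have hD' : 2 * D < b ^ q := by omega
  by_cases h : s < q ∧ s < K
  · obtain ⟨hs, hK⟩ := h
    have hinj : Function.Injective (fun j : ℕ => s + q * (j + 1)) := by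
      intro i j hij
      simp only at hij
      have h1 : q * (i + 1) = q * (j + 1) := by omega
      have := Nat.eq_of_mul_eq_mul_left hq h1
      omega
    have hcard : #(pos q s K) = (K - s - 1) / q := by
      rw [pos_eq hq hs hK, card_image_of_injective _ hinj, card_range]
    have hm : s + q * ((K - s - 1) / q) ≤ K := by
      have := Nat.mul_div_le (K - s - 1) q
      omega
    have h1 := rb hb l q hD' hT0 hf hf1 hW hm hB hP hδ0 hδ1 (X := X) (fun p hp => by
      have h2 := hX p hp
      rw [pos_eq hq hs hK, sum_image (fun i _ j _ hij => hinj hij)] at h2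
      exact h2)
    rw [hcard]
    exact h1
  · have hempty : pos q s K = ∅ := by
      rw [pos, filter_eq_empty_iff]
      intro i hi h3
      rw [mem_Ico] at hi
      apply h
      have h4 := Nat.mod_lt i (by omega : q > 0)
      constructor
      · omega
      · omega
    have h1 := rb (m := 0) (r' := 0) hb l q hD' hT0 hf hf1 hW (by omega : 0 + q * 0 ≤ K) hB hP
      hδ0 hδ1 (X := X) (fun p hp => by
        have h2 := hX p hp
        rw [hempty, sum_empty] at h2
        simpa using h2)
    rw [hempty, card_empty]
    exact h1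

end Pool.Agent.Helper99.FP
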