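import Pool.Agent.Helper99.SC.Pars

set_option autoImplicit false

/-!
Trigonometric majorants and minorants of arcs in Fejer pieces, by finite sums.
-/

namespace Pool.Agent.Helper99.FP

open Finset Pool.Agent.Helper7.SC Pool.Agent.Helper99.SC

lemma norm_e_sub_one_sq (x : ℝ) : ‖e x - 1‖ ^ 2 = 4 * Real.sin (Real.pi * x) ^ 2 := by
  rw [e_eq, ← Complex.normSq_eq_norm_sq, Complex.normSq_apply]
  simp only [Complex.sub_re, Complex.add_re, Complex.ofReal_re, Complex.mul_re, Complex.I_re,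
    Complex.I_im, Complex.ofReal_im, Complex.one_re, Complex.sub_im, Complex.add_im,
    Complex.mul_im, Complex.one_im]
  have h1 : Real.cos (2 * Real.pi * x) = 1 - 2 * Real.sin (Real.pi * x) ^ 2 := by
    have h2 := Real.cos_two_mul (Real.pi * x)
    have h3 := Real.sin_sq_add_cos_sq (Real.pi * x)
    have h4 : 2 * Real.pi * x = 2 * (Real.pi * x) := by ring
    rw [h4]
    linarith
  have h5 := Real.sin_sq_add_cos_sq (2 * Real.pi * x)
  nlinarith

lemma norm_e_sub_one (x : ℝ) : ‖e x - 1‖ = 2 * |Real.sin (Real.pi * x)| := by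
  have h := norm_e_sub_one_sq x
  have h1 : ‖e x - 1‖ ^ 2 = (2 * |Real.sin (Real.pi * x)|) ^ 2 := by
    rw [h, mul_pow, sq_abs]
    norm_num
  exact (pow_left_inj₀ (norm_nonneg _) (by positivity) two_ne_zero).mp h1

lemma sin_lower {η x : ℝ} (h1 : η ≤ x) (h2 : x ≤ 1 - η) (h0 : 0 ≤ η) :
    2 * η ≤ Real.sin (Real.pi * x) := by
  have hpi := Real.pi_pos
  by_cases h : x ≤ 1 / 2
  · have h3 := Real.mul_le_sin (x := Real.pi * x) (by nlinarith) (by nlinarith)
    have h4 : 2 / Real.pi * (Real.pi * x) = 2 * x := by field_simp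
    linarith
  · push Not at h
    have h3 := Real.mul_le_sin (x := Real.pi * (1 - x)) (by nlinarith) (by nlinarith)
    have h4 : 2 / Real.pi * (Real.pi * (1 - x)) = 2 * (1 - x) := by field_simp
    have h5 : Real.sin (Real.pi * (1 - x)) = Real.sin (Real.pi * x) := by
      rw [← Real.sin_pi_sub]
      congr 1
      ring
    rw [h5] at h3
    linarith

lemma geom_bound (m : ℕ) {x : ℝ} (hx : e x ≠ 1) :
    ‖∑ k ∈ range m, e (k * x)‖ ≤ 2 / ‖e x - 1‖ := by
  have h1 : ∑ k ∈ range m, e (k * x) = (e x ^ m - 1) / (e x - 1) := by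
    rw [← geom_sum_eq hx]
    exact sum_congr rfl fun k _ => (e_pow x k).symm
  rw [h1, norm_div]
  refine div_le_div_of_nonneg_right ?_ (norm_nonneg _)
  refine (norm_sub_le _ _).trans ?_
  rw [norm_pow, norm_e, one_pow, norm_one]
  norm_num

/-- The Fejer kernel. -/
noncomputable def Fj (m : ℕ) (y : ℝ) : ℝ := ‖∑ k ∈ range m, e (k * y)‖ ^ 2 / m

/-- The coefficients of the Fejer kernel. -/
noncomputable def ph (m : ℕ) (h : ℤ) : ℝ :=
  (#{p ∈ range m ×ˢ range m | ((p.1 : ℕ) : ℤ) - ((p.2 : ℕ) : ℤ) = h} : ℝ) / m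

lemma Fj_nonneg (m : ℕ) (y : ℝ) : 0 ≤ Fj m y := by unfold Fj; positivity

lemma Fj_one (y : ℝ) : Fj 1 y = 1 := by simp [Fj, e_zero]

lemma Fj_eq (m : ℕ) (y : ℝ) :
    (Fj m y : ℂ) = ∑ h ∈ Icc (-(m : ℤ)) m, (ph m h : ℂ) * e (h * y) := by
  unfold Fj
  rw [Complex.ofReal_div, ← Complex.normSq_eq_norm_sq, Complex.normSq_eq_conj_mul_self, map_sum,
    mul_comm, sum_mul_sum, ← sum_product']
  have h1 : ∀ p ∈ range m ×ˢ range m, ((p.1 : ℕ) : ℤ) - ((p.2 : ℕ) : ℤ) ∈ Icc (-(m : ℤ)) m := by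
    intro p hp
    simp only [mem_product, mem_range] at hp
    rw [mem_Icc]
    omega
  rw [← sum_fiberwise_of_maps_to h1, sum_div]
  refine sum_congr rfl fun h _ => ?_
  have h2 : ∀ p ∈ (range m ×ˢ range m).filter
      (fun p => ((p.1 : ℕ) : ℤ) - ((p.2 : ℕ) : ℤ) = h),
      e (p.1 * y) * (starRingEnd ℂ) (e (p.2 * y)) = e (h * y) := by
    intro p hp
    rw [mem_filter] at hp
    rw [e_conj, ← e_add, ← hp.2]
    congr 1
    push_cast
    ring
  rw [sum_congr rfl h2, sum_const, nsmul_eq_mul]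
  unfold ph
  push_cast
  ring

lemma ph_nonneg (m : ℕ) (h : ℤ) : 0 ≤ ph m h := by unfold ph; positivity

lemma ph_le_one (m : ℕ) (h : ℤ) : ph m h ≤ 1 := by
  unfold ph
  apply div_le_one_of_le₀ _ (Nat.cast_nonneg m)
  have h1 : #{p ∈ range m ×ˢ range m | ((p.1 : ℕ) : ℤ) - ((p.2 : ℕ) : ℤ) = h} ≤ #(range m) := by
    refine card_le_card_of_injOn (fun p => p.2) ?_ ?_
    · intro p hp
      simp only [coe_filter, mem_product, Set.mem_ofPred_eq] at hp
      exact hp.1.2
    · intro p hp p' hp' h3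
      simp only [coe_filter, mem_product, Set.mem_ofPred_eq] at hp hp'
      simp only at h3
      have h4 := hp.2
      have h5 := hp'.2
      rw [Prod.ext_iff]
      refine ⟨?_, h3⟩
      rw [h3] at h4
      omega
  rw [card_range] at h1
  exact_mod_cast h1

lemma ph_eq_zero {m : ℕ} {h : ℤ} (hm : (m : ℤ) ≤ |h|) : ph m h = 0 := by
  unfold ph
  have : {p ∈ range m ×ˢ range m | ((p.1 : ℕ) : ℤ) - ((p.2 : ℕ) : ℤ) = h} = ∅ := by
    rw [filter_eq_empty_iff]
    intro p hp h3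
    simp only [mem_product, mem_range] at hp
    rw [← h3] at hm
    rcases abs_cases (((p.1 : ℕ) : ℤ) - ((p.2 : ℕ) : ℤ)) with h4 | h4 <;> omega
  rw [this]
  simp

lemma one_sub_ph_le {m : ℕ} (hm : 0 < m) (h : ℤ) : 1 - ph m h ≤ |(h : ℝ)| / m := by
  have hm' : (0 : ℝ) < m := by exact_mod_cast hm
  have h1 : m - h.natAbs ≤
      #{p ∈ range m ×ˢ range m | ((p.1 : ℕ) : ℤ) - ((p.2 : ℕ) : ℤ) = h} := by
    have h2 : #(range (m - h.natAbs)) = m - h.natAbs := card_range _
    rw [← h2]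
    refine card_le_card_of_injOn (fun l => (l + h.toNat, l + (-h).toNat)) ?_ ?_
    · intro l hl
      simp only [coe_range, Set.mem_Iio] at hl
      simp only [coe_filter, mem_product, mem_range, Set.mem_ofPred_eq]
      refine ⟨⟨by omega, by omega⟩, ?_⟩
      push_cast
      omega
    · intro l _ l' _ h3
      simp only [Prod.mk.injEq] at h3
      omega
  have h3 : (m : ℝ) - |(h : ℝ)| ≤
      (#{p ∈ range m ×ˢ range m | ((p.1 : ℕ) : ℤ) - ((p.2 : ℕ) : ℤ) = h} : ℝ) := by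
    have h4 : (m : ℝ) - |(h : ℝ)| ≤ ((m - h.natAbs : ℕ) : ℝ) := by
      have h5 : |(h : ℝ)| = (h.natAbs : ℝ) := by
        rw [Nat.cast_natAbs, Int.cast_abs]
      rw [h5]
      have h6 : (m : ℤ) - h.natAbs ≤ ((m - h.natAbs : ℕ) : ℤ) := by omega
      exact_mod_cast h6
    exact h4.trans (by exact_mod_cast h1)
  unfold ph
  rw [sub_le_iff_le_add, ← add_div, le_div_iff₀ hm']
  linarith

lemma ph_zero {m : ℕ} (hm : 0 < m) : ph m 0 = 1 := by
  have h1 := one_sub_ph_le hm 0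
  have h2 := ph_le_one m 0
  simp only [Int.cast_zero, abs_zero, zero_div] at h1
  linarith

lemma Fj_tail {m : ℕ} (hm : 0 < m) {η x : ℝ} (h0 : 0 < η) (h : 2 * η ≤ |Real.sin (Real.pi * x)|) :
    Fj m x ≤ 1 / (4 * m * η ^ 2) := by
  have hm' : (0 : ℝ) < m := by exact_mod_cast hm
  have h1 : 4 * η ≤ ‖e x - 1‖ := by
    rw [norm_e_sub_one]
    linarith
  have hne : e x ≠ 1 := by
    intro h2
    rw [h2, sub_self, norm_zero] at h1
    linarith
  have h3 := geom_bound m hne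
  have h4 : 2 / ‖e x - 1‖ ≤ 2 / (4 * η) := by
    apply div_le_div_of_nonneg_left (by norm_num) (by positivity) h1
  have h5 : ‖∑ k ∈ range m, e (k * x)‖ ^ 2 ≤ (2 / (4 * η)) ^ 2 :=
    pow_le_pow_left₀ (norm_nonneg _) (h3.trans h4) 2
  unfold Fj
  calc ‖∑ k ∈ range m, e (k * x)‖ ^ 2 / m ≤ (2 / (4 * η)) ^ 2 / m :=
        div_le_div_of_nonneg_right h5 hm'.le
    _ = 1 / (4 * m * η ^ 2) := by
        field_simp
        ring

/-- The Fejer mean of the grid measure on the points `x0 + i / N`, `i < L`. -/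
noncomputable def sg (N L : ℕ) (x0 : ℝ) (m : ℕ) (y : ℝ) : ℝ :=
  1 / N * ∑ i ∈ range L, Fj m (y - x0 - i / N)

/-- The Fourier coefficients of the grid measure. -/
noncomputable def co (N L : ℕ) (x0 : ℝ) (h : ℤ) : ℂ :=
  (1 / N : ℂ) * ∑ i ∈ range L, e (-(h * (x0 + i / N)))

lemma sg_eq (N L : ℕ) (x0 : ℝ) (m : ℕ) (y : ℝ) :
    (sg N L x0 m y : ℂ) = ∑ h ∈ Icc (-(m : ℤ)) m, (ph m h : ℂ) * co N L x0 h * e (h * y) := by
  unfold sg co
  rw [Complex.ofReal_mul, Complex.ofReal_sum]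
  simp only [Fj_eq]
  rw [sum_comm, mul_sum]
  refine sum_congr rfl fun h _ => ?_
  rw [mul_sum, mul_sum, mul_sum, sum_mul]
  refine sum_congr rfl fun i _ => ?_
  have h1 : e (h * (y - x0 - i / N)) = e (-(h * (x0 + i / N))) * e (h * y) := by
    rw [← e_add]
    congr 1
    ring
  rw [h1]
  push_cast
  ring

lemma sg_nonneg (N L : ℕ) (x0 : ℝ) (m : ℕ) (y : ℝ) : 0 ≤ sg N L x0 m y := by
  unfold sg
  exact mul_nonneg (by positivity) (sum_nonneg fun _ _ => Fj_nonneg _ _)

lemma sg_one (N L : ℕ) (x0 y : ℝ) : sg N L x0 1 y = L / N := by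
  unfold sg
  simp only [Fj_one]
  simp
  ring

lemma co_zero (N L : ℕ) (x0 : ℝ) : co N L x0 0 = (L : ℂ) / N := by
  unfold co
  simp [e_zero]
  ring

/-- The mean over a full grid. -/
lemma sg_full {N m : ℕ} (hm : 0 < m) (hmN : m ≤ N) (x0 y : ℝ) : sg N N x0 m y = 1 := by
  have hN : 0 < N := by omega
  have hN' : (N : ℂ) ≠ 0 := by exact_mod_cast hN.ne'
  apply Complex.ofReal_injective
  rw [sg_eq]
  have h1 : ∀ h ∈ Icc (-(m : ℤ)) m, h ≠ 0 → (ph m h : ℂ) * co N N x0 h * e (h * y) = 0 := by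
    intro h hh h0
    rw [mem_Icc] at hh
    by_cases h2 : (m : ℤ) ≤ |h|
    · rw [ph_eq_zero h2]; simp
    · have h3 : co N N x0 h = 0 := by
        unfold co
        have h4 : ∀ i ∈ range N, e (-(h * (x0 + i / N))) =
            e (-(h * x0)) * e (i * (((-h : ℤ) : ℝ) / N)) := by
          intro i _
          rw [← e_add]
          congr 1
          push_cast
          ring
        rw [sum_congr rfl h4, ← mul_sum, orth N hN, if_neg]
        · simp
        · rw [ZMod.intCast_zmod_eq_zero_iff_dvd]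
          intro h5
          have h6 : (N : ℤ) ∣ h := by simpa using h5
          have h7 := Int.le_of_dvd (abs_pos.mpr h0) ((dvd_abs _ _).mpr h6)
          omega
      rw [h3]; simp
  rw [sum_eq_single_of_mem 0 (by simp) (fun h hh h0 => h1 h hh h0), ph_zero hm, co_zero]
  simp [e_zero, hN']

lemma sg_le_one {N L m : ℕ} (hm : 0 < m) (hmN : m ≤ N) (hL : L ≤ N) (x0 y : ℝ) :
    sg N L x0 m y ≤ 1 := by
  rw [← sg_full hm hmN x0 y]
  unfold sg
  refine mul_le_mul_of_nonneg_left ?_ (by positivity)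
  exact sum_le_sum_of_subset_of_nonneg (range_subset_range.mpr hL) fun _ _ _ => Fj_nonneg _ _

lemma co_bound {N L : ℕ} (x0 : ℝ) {h : ℤ} (h0 : h ≠ 0) (hN : 2 * |(h : ℝ)| ≤ N) :
    ‖co N L x0 h‖ ≤ 1 / (2 * |(h : ℝ)|) := by
  have hh : 0 < |(h : ℝ)| := abs_pos.mpr (by exact_mod_cast h0)
  have hN' : (0 : ℝ) < N := by linarith
  unfold co
  have h4 : ∀ i ∈ range L, e (-(h * (x0 + i / N))) =
      e (-(h * x0)) * e (i * (((-h : ℤ) : ℝ) / N)) := by
    intro i _
    rw [← e_add]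
    congr 1
    push_cast
    ring
  rw [sum_congr rfl h4, ← mul_sum, norm_mul, norm_mul, norm_e, one_mul, norm_div, norm_one,
    Complex.norm_natCast]
  set x : ℝ := ((-h : ℤ) : ℝ) / N with hx
  have h5 : |x| = |(h : ℝ)| / N := by
    rw [hx, abs_div, Nat.abs_cast]
    push_cast
    rw [abs_neg]
  have h6 : 2 * |x| ≤ |Real.sin (Real.pi * x)| := by
    have h7 : |Real.sin (Real.pi * x)| = Real.sin (Real.pi * |x|) := by
      rcases abs_cases x with h8 | h8
      · rw [h8.1, abs_of_nonneg]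
        apply Real.sin_nonneg_of_nonneg_of_le_pi
        · have := Real.pi_pos; nlinarith [h8.2]
        · have := Real.pi_pos
          have h9 : |x| ≤ 1 / 2 := by
            rw [h5, div_le_iff₀ hN']; linarith
          rw [h8.1] at h9
          nlinarith
      · rw [h8.1, show Real.pi * -x = -(Real.pi * x) by ring, Real.sin_neg, abs_of_nonpos]
        have h9 : |x| ≤ 1 / 2 := by
          rw [h5, div_le_iff₀ hN']; linarith
        rw [h8.1] at h9
        have h10 : 0 ≤ Real.sin (Real.pi * -x) := by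
          apply Real.sin_nonneg_of_nonneg_of_le_pi
          · have := Real.pi_pos; nlinarith [h8.2]
          · have := Real.pi_pos; nlinarith
        rw [show Real.pi * -x = -(Real.pi * x) by ring, Real.sin_neg] at h10
        linarith
    rw [h7]
    have h9 : |x| ≤ 1 / 2 := by
      rw [h5, div_le_iff₀ hN']; linarith
    exact sin_lower le_rfl (by linarith) (abs_nonneg x)
  have hx0 : 0 < |x| := by rw [h5]; positivity
  have h11 : 4 * |x| ≤ ‖e x - 1‖ := by rw [norm_e_sub_one]; linarith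
  have hne : e x ≠ 1 := by
    intro h2
    rw [h2, sub_self, norm_zero] at h11
    linarith
  have h12 := geom_bound L hne
  have h13 : 2 / ‖e x - 1‖ ≤ 2 / (4 * |x|) :=
    div_le_div_of_nonneg_left (by norm_num) (by positivity) h11
  calc 1 / (N : ℝ) * ‖∑ i ∈ range L, e (i * x)‖ ≤ 1 / (N : ℝ) * (2 / (4 * |x|)) :=
        mul_le_mul_of_nonneg_left (h12.trans h13) (by positivity)
    _ = 1 / (2 * |(h : ℝ)|) := by
        rw [h5]
        field_simp
        ring

end Pool.Agent.Helper99.FP
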