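import Pool.Agent.Helper80.TQ.En

/-!
# The moments of the weights of biased binary digits
-/

set_option autoImplicit false

open Finset

namespace Pool.Agent.Helper99.FP

open Pool.Agent.Helper80.TQ

theorem R_nonneg {d : ℝ} (hd0 : 0 ≤ d) (hd1 : d ≤ 1) (k n : ℕ) : 0 ≤ R d k n := by
  unfold R
  refine sum_nonneg fun a _ => sum_nonneg fun b _ => ?_
  split_ifs
  · exact mul_nonneg (wt_nonneg hd0 hd1 k a) (wt_nonneg hd0 hd1 k b)
  · exact le_rfl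

theorem R'_nonneg {d : ℝ} (hd0 : 0 ≤ d) (hd1 : d ≤ 1) (k n : ℕ) : 0 ≤ R' d k n := by
  cases n with
  | zero => rw [R'_zero]
  | succ n => rw [R'_succ]; exact R_nonneg hd0 hd1 k n

/-- the `m`-th moment -/
noncomputable def PM (m : ℕ) (d : ℝ) (k : ℕ) : ℝ := ∑ n ∈ range (2 * 2 ^ k), R d k n ^ m

theorem PM'_le {m : ℕ} (hm : 1 ≤ m) {d : ℝ} (hd0 : 0 ≤ d) (hd1 : d ≤ 1) (k : ℕ) :
    ∑ n ∈ range (2 * 2 ^ k), R' d k n ^ m ≤ PM m d k := by
  unfold PM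
  obtain ⟨N, hN⟩ : ∃ N, 2 * 2 ^ k = N + 1 := ⟨2 * 2 ^ k - 1, by
    have : 0 < 2 ^ k := by positivity
    omega⟩
  rw [hN, sum_range_succ', R'_zero]
  rw [sum_congr rfl fun n _ => by rw [R'_succ], sum_range_succ]
  have := pow_nonneg (R_nonneg hd0 hd1 k N) m
  rw [zero_pow (by omega)]
  linarith

/-- convexity -/
theorem conv_pow {m : ℕ} (hm : 1 ≤ m) {α β x y : ℝ} (hα : 0 < α) (hβ : 0 ≤ β) (hx : 0 ≤ x)
    (hy : 0 ≤ y) : (α * x + β * y) ^ m ≤ (α + β) ^ (m - 1) * (α * x ^ m + β * y ^ m) := by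
  have hs : 0 < α + β := by linarith
  have h := (convexOn_pow m).2 (Set.mem_Ici.2 hx) (Set.mem_Ici.2 hy)
    (show 0 ≤ α / (α + β) by positivity) (show 0 ≤ β / (α + β) by positivity)
    (by rw [← add_div, div_self hs.ne'])
  simp only [smul_eq_mul] at h
  have h2 : α / (α + β) * x + β / (α + β) * y = (α * x + β * y) / (α + β) := by
    field_simp
  have h3 : α / (α + β) * x ^ m + β / (α + β) * y ^ m = (α * x ^ m + β * y ^ m) / (α + β) := by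
    field_simp
  rw [h2, h3, div_pow, div_le_div_iff₀ (by positivity) hs] at h
  obtain ⟨j, rfl⟩ : ∃ j, m = j + 1 := ⟨m - 1, by omega⟩
  rw [Nat.add_sub_cancel]
  have h4 : (α * x ^ (j + 1) + β * y ^ (j + 1)) * (α + β) ^ (j + 1) =
      ((α + β) ^ j * (α * x ^ (j + 1) + β * y ^ (j + 1))) * (α + β) := by
    ring
  rw [h4] at h
  exact le_of_mul_le_mul_right h hs

theorem PM_succ {m : ℕ} (hm : 1 ≤ m) {d : ℝ} (hd0 : 0 ≤ d) (hd1 : d ≤ 1) (k : ℕ) :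
    PM m d (k + 1) ≤ ((2 * (1 + d ^ 2)) ^ m + (2 * (1 - d ^ 2)) ^ m) * PM m d k := by
  have hd : 0 ≤ 1 - d := by linarith
  have h1 : PM m d (k + 1) ≤ ∑ n ∈ range (2 * 2 ^ k),
      ((2 * (1 + d ^ 2)) ^ (m - 1) * ((1 + d) ^ 2 * R d k n ^ m + (1 - d) ^ 2 * R' d k n ^ m) +
        (2 * (1 - d ^ 2)) ^ m * R d k n ^ m) := by
    unfold PM
    rw [show 2 * 2 ^ (k + 1) = 2 * (2 * 2 ^ k) by ring, sum_double]
    refine sum_le_sum fun n _ => ?_
    rw [R_even, R_odd]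
    have e1 := conv_pow hm (α := (1 + d) ^ 2) (β := (1 - d) ^ 2) (by positivity) (by positivity)
      (R_nonneg hd0 hd1 k n) (R'_nonneg hd0 hd1 k n)
    have e2 : (1 + d) ^ 2 + (1 - d) ^ 2 = 2 * (1 + d ^ 2) := by ring
    rw [e2] at e1
    have e3 : (2 * (1 + d) * (1 - d) * R d k n) ^ m = (2 * (1 - d ^ 2)) ^ m * R d k n ^ m := by
      rw [← mul_pow]
      congr 1
      ring
    rw [e3]
    linarith
  refine h1.trans ?_
  rw [sum_add_distrib, ← mul_sum, sum_add_distrib, ← mul_sum, ← mul_sum, ← mul_sum, add_mul]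
  have h2 := PM'_le hm hd0 hd1 k
  refine add_le_add ?_ (le_of_eq rfl)
  have h3 : (1 + d) ^ 2 * ∑ n ∈ range (2 * 2 ^ k), R d k n ^ m +
      (1 - d) ^ 2 * ∑ n ∈ range (2 * 2 ^ k), R' d k n ^ m ≤ (2 * (1 + d ^ 2)) * PM m d k := by
    have h4 := mul_le_mul_of_nonneg_left h2 (by positivity : 0 ≤ (1 - d) ^ 2)
    unfold PM at h4 ⊢
    refine (add_le_add (le_refl _) h4).trans (le_of_eq ?_)
    ring
  refine (mul_le_mul_of_nonneg_left h3 (by positivity)).trans (le_of_eq ?_)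
  obtain ⟨j, rfl⟩ : ∃ j, m = j + 1 := ⟨m - 1, by omega⟩
  rw [Nat.add_sub_cancel, pow_succ]
  ring

theorem PM_le {m : ℕ} (hm : 1 ≤ m) {d : ℝ} (hd0 : 0 ≤ d) (hd1 : d ≤ 1) (k : ℕ) :
    PM m d k ≤ ((2 * (1 + d ^ 2)) ^ m + (2 * (1 - d ^ 2)) ^ m) ^ k := by
  have hd2 : 0 ≤ 1 - d ^ 2 := by nlinarith
  induction k with
  | zero =>
    have r0 : R d 0 0 = 1 := by
      unfold R
      rw [pow_zero, sum_range_one, sum_range_one, if_pos rfl]
      simp [wt]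
    have r1 : R d 0 1 = 0 := by simp [R]
    unfold PM
    rw [pow_zero, mul_one, sum_range_succ, sum_range_succ, range_zero, sum_empty, r0, r1,
      zero_pow (by omega)]
    norm_num
  | succ k ih =>
    refine (PM_succ hm hd0 hd1 k).trans ?_
    rw [pow_succ, mul_comm]
    exact mul_le_mul_of_nonneg_right ih (by positivity)

/-- the second order terms cancel -/
theorem kappa_le (m : ℕ) {d : ℝ} (hd0 : 0 ≤ d) (hd1 : d ≤ 1) :
    (2 * (1 + d ^ 2)) ^ m + (2 * (1 - d ^ 2)) ^ m ≤ 2 ^ (m + 1) * Real.exp (m ^ 2 * d ^ 4 / 2) := by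
  have hd2 : 0 ≤ 1 - d ^ 2 := by nlinarith
  have h1 : 1 + d ^ 2 ≤ Real.exp (d ^ 2) := by
    have := Real.add_one_le_exp (d ^ 2)
    linarith
  have h2 : 1 - d ^ 2 ≤ Real.exp (-d ^ 2) := by
    have := Real.add_one_le_exp (-d ^ 2)
    linarith
  have h3 : (1 + d ^ 2) ^ m ≤ Real.exp (m * d ^ 2) := by
    refine (pow_le_pow_left₀ (by positivity) h1 m).trans (le_of_eq ?_)
    rw [← Real.exp_nat_mul]
  have h4 : (1 - d ^ 2) ^ m ≤ Real.exp (-(m * d ^ 2)) := by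
    refine (pow_le_pow_left₀ hd2 h2 m).trans (le_of_eq ?_)
    rw [← Real.exp_nat_mul]
    congr 1
    ring
  have h5 : Real.exp (m * d ^ 2) + Real.exp (-(m * d ^ 2)) ≤ 2 * Real.exp (m ^ 2 * d ^ 4 / 2) := by
    have h6 := Real.cosh_le_exp_half_sq (m * d ^ 2)
    rw [Real.cosh_eq] at h6
    have h7 : ((m : ℝ) * d ^ 2) ^ 2 / 2 = m ^ 2 * d ^ 4 / 2 := by ring
    rw [h7] at h6
    linarith
  rw [mul_pow, mul_pow, pow_succ]
  have h8 : (0 : ℝ) < 2 ^ m := by positivity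
  have h9 := mul_le_mul_of_nonneg_left ((add_le_add h3 h4).trans h5) h8.le
  refine le_trans (le_of_eq ?_) (h9.trans (le_of_eq ?_))
  · ring
  · ring

/-- **the moments** -/
theorem moments {m : ℕ} (hm : 1 ≤ m) {d : ℝ} (hd0 : 0 ≤ d) (hd1 : d ≤ 1) (k : ℕ) :
    ∑ n ∈ range (2 * 2 ^ k), R d k n ^ m ≤
      (2 ^ k) ^ (m + 1) * Real.exp (m ^ 2 * d ^ 4 / 2 * k) := by
  refine (PM_le hm hd0 hd1 k).trans ?_
  have hd2 : 0 ≤ 1 - d ^ 2 := by nlinarith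
  refine (pow_le_pow_left₀ (by positivity) (kappa_le m hd0 hd1) k).trans (le_of_eq ?_)
  rw [mul_pow, ← Real.exp_nat_mul, ← pow_mul, ← pow_mul, mul_comm k (m + 1)]
  congr 2
  ring

end Pool.Agent.Helper99.FP
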