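import Pool.Agent.Helper38.SP.Bern

/-!
# The moments of the number of representations by a random set
-/

set_option autoImplicit false

open Finset

namespace Pool.Agent.Helper99.FP

open Pool.Agent.Helper38.SP

/-- the number of representations -/
def rf (S : Finset ℕ) (n : ℕ) : ℕ := #{v ∈ S ×ˢ S | v.1 + v.2 = n}

/-- the smaller summands -/
def Hn (G : Finset ℕ) (n : ℕ) : Finset ℕ := {a ∈ G | 2 * a < n ∧ n - a ∈ G}

theorem rf_le {G S : Finset ℕ} (hS : S ⊆ G) (n : ℕ) :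
    rf S n ≤ 2 * #{a ∈ Hn G n | a ∈ S ∧ n - a ∈ S} + 1 := by
  classical
  obtain ⟨T, hT⟩ : ∃ T, T = {a ∈ Hn G n | a ∈ S ∧ n - a ∈ S} := ⟨_, rfl⟩
  rw [← hT]
  have hmem : ∀ a, a ∈ T ↔ 2 * a < n ∧ a ∈ S ∧ n - a ∈ S := by
    intro a
    rw [hT]
    unfold Hn
    simp only [mem_filter]
    constructor
    · rintro ⟨⟨_, h1, _⟩, h2, h3⟩
      exact ⟨h1, h2, h3⟩
    · rintro ⟨h1, h2, h3⟩
      exact ⟨⟨hS h2, h1, hS h3⟩, h2, h3⟩
  have hsub : {v ∈ S ×ˢ S | v.1 + v.2 = n} ⊆
      (T.image (fun a => (a, n - a)) ∪ T.image (fun a => (n - a, a))) ∪ {(n / 2, n / 2)} := by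
    rintro ⟨a, b⟩ hv
    rw [mem_filter, mem_product] at hv
    obtain ⟨⟨ha, hb⟩, hab⟩ := hv
    simp only at ha hb hab
    rw [mem_union, mem_union, mem_image, mem_image, mem_singleton]
    rcases lt_trichotomy a b with h | h | h
    · left; left
      refine ⟨a, (hmem a).2 ⟨by omega, ha, ?_⟩, ?_⟩
      · rwa [show n - a = b by omega]
      · rw [show n - a = b by omega]
    · right
      subst h
      rw [show n / 2 = a by omega]
    · left; right
      refine ⟨b, (hmem b).2 ⟨by omega, hb, ?_⟩, ?_⟩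
      · rwa [show n - b = a by omega]
      · rw [show n - b = a by omega]
  have h1 := card_le_card hsub
  have h2 := card_union_le (T.image (fun a => (a, n - a)) ∪ T.image (fun a => (n - a, a)))
    {(n / 2, n / 2)}
  have h3 := card_union_le (T.image (fun a => (a, n - a))) (T.image (fun a => (n - a, a)))
  have h4 : #(T.image (fun a => (a, n - a))) ≤ #T := card_image_le
  have h5 : #(T.image (fun a => (n - a, a))) ≤ #T := card_image_le
  rw [card_singleton] at h2
  unfold rf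
  omega

/-- the generating function of the number of represented pairs -/
theorem EX_gen (p : ℕ → ℝ) (G : Finset ℕ) (n : ℕ) (η : ℝ) :
    EX p G (fun S => (1 + η) ^ #{a ∈ Hn G n | a ∈ S ∧ n - a ∈ S}) =
      ∏ a ∈ Hn G n, (1 + η * (p a * p (n - a))) := by
  classical
  have hexp : ∀ S : Finset ℕ, (1 + η) ^ #{a ∈ Hn G n | a ∈ S ∧ n - a ∈ S} =
      ∑ T ∈ (Hn G n).powerset, η ^ #T *
        (if T ∪ T.image (fun a => n - a) ⊆ S then 1 else 0) := by
    intro S
    have h1 : (1 + η) ^ #{a ∈ Hn G n | a ∈ S ∧ n - a ∈ S} =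
        ∏ a ∈ Hn G n, (1 + (if a ∈ S ∧ n - a ∈ S then η else 0)) := by
      rw [← prod_const, prod_filter]
      refine prod_congr rfl fun a _ => ?_
      split_ifs
      · rfl
      · rw [add_zero]
    rw [h1, prod_one_add]
    refine sum_congr rfl fun T _ => ?_
    by_cases h : T ∪ T.image (fun a => n - a) ⊆ S
    · rw [if_pos h, mul_one, ← prod_const]
      refine prod_congr rfl fun a ha => ?_
      rw [if_pos]
      exact ⟨h (mem_union_left _ ha), h (mem_union_right _ (mem_image_of_mem _ ha))⟩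
    · rw [if_neg h, mul_zero]
      have h2 : ∃ a ∈ T, ¬ (a ∈ S ∧ n - a ∈ S) := by
        by_contra hcon
        push Not at hcon
        refine h (union_subset (fun a ha => (hcon a ha).1) ?_)
        intro b hb
        obtain ⟨a, ha, rfl⟩ := mem_image.1 hb
        exact (hcon a ha).2
      obtain ⟨a, ha, h3⟩ := h2
      exact prod_eq_zero ha (if_neg h3)
  have h1 : EX p G (fun S => (1 + η) ^ #{a ∈ Hn G n | a ∈ S ∧ n - a ∈ S}) =
      EX p G (fun S => ∑ T ∈ (Hn G n).powerset, η ^ #T *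
        (if T ∪ T.image (fun a => n - a) ⊆ S then 1 else 0)) := by
    congr 1
    funext S
    exact hexp S
  rw [h1, EX_sum, prod_one_add]
  refine sum_congr rfl fun T hT => ?_
  rw [mem_powerset] at hT
  have hmem : ∀ a ∈ T, a ∈ G ∧ 2 * a < n ∧ n - a ∈ G := fun a ha => by
    have := hT ha
    unfold Hn at this
    rw [mem_filter] at this
    exact this
  rw [EX_const_mul]
  have h2 : EX p G (fun S => if T ∪ T.image (fun a => n - a) ⊆ S then (1 : ℝ) else 0) =
      ∏ a ∈ T ∪ T.image (fun a => n - a), p a := by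
    rw [← sum_super p (R := G) (F := T ∪ T.image (fun a => n - a))]
    · unfold EX
      rw [sum_filter]
      refine sum_congr rfl fun S _ => ?_
      by_cases h : T ∪ T.image (fun a => n - a) ⊆ S
      · simp only [if_pos h, mul_one]
      · simp only [if_neg h, mul_zero]
    · refine union_subset (fun a ha => (hmem a ha).1) ?_
      intro b hb
      obtain ⟨a, ha, rfl⟩ := mem_image.1 hb
      exact (hmem a ha).2.2
  rw [h2, prod_union, prod_image, ← prod_mul_distrib, ← prod_const, ← prod_mul_distrib]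
  · intro a ha b hb hab
    have h3 := (hmem a ha).2.1
    have h4 := (hmem b hb).2.1
    have hab' : n - a = n - b := hab
    omega
  · rw [disjoint_left]
    intro a ha hb
    obtain ⟨b, hb, hab⟩ := mem_image.1 hb
    have h3 := (hmem a ha).2.1
    have h4 := (hmem b hb).2.1
    have hab' : n - b = a := hab
    omega

/-- the expected number of representations -/
noncomputable def mu (p : ℕ → ℝ) (G : Finset ℕ) (n : ℕ) : ℝ :=
  ∑ v ∈ (G ×ˢ G).filter (fun v => v.1 + v.2 = n), p v.1 * p v.2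

theorem mu_nonneg {p : ℕ → ℝ} (h0 : ∀ a, 0 ≤ p a) (G : Finset ℕ) (n : ℕ) : 0 ≤ mu p G n :=
  sum_nonneg fun _ _ => mul_nonneg (h0 _) (h0 _)

theorem half_le_mu {p : ℕ → ℝ} (h0 : ∀ a, 0 ≤ p a) (G : Finset ℕ) (n : ℕ) :
    ∑ a ∈ Hn G n, p a * p (n - a) ≤ mu p G n := by
  classical
  have h1 : ∑ a ∈ Hn G n, p a * p (n - a) =
      ∑ v ∈ (Hn G n).image (fun a => (a, n - a)), p v.1 * p v.2 := by
    rw [sum_image]
    intro a _ b _ hab
    exact (Prod.ext_iff.1 hab).1
  rw [h1]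
  refine sum_le_sum_of_subset_of_nonneg ?_ fun v _ _ => mul_nonneg (h0 _) (h0 _)
  intro v hv
  obtain ⟨a, ha, rfl⟩ := mem_image.1 hv
  unfold Hn at ha
  rw [mem_filter] at ha
  rw [mem_filter, mem_product]
  exact ⟨⟨ha.1, ha.2.2⟩, by simp only; omega⟩

theorem pow_le_lin (m : ℕ) {x : ℝ} (hx0 : 0 ≤ x) (hx1 : x ≤ 1) :
    (1 + x) ^ m ≤ 1 + (2 ^ m - 1) * x := by
  induction m with
  | zero => simp
  | succ m ih =>
    have h1 : (1 : ℝ) ≤ 2 ^ m := one_le_pow₀ (by norm_num)
    rw [pow_succ, pow_succ]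
    have h2 := mul_le_mul_of_nonneg_right ih (by linarith : 0 ≤ 1 + x)
    refine h2.trans ?_
    have h3 : 0 ≤ ((2 : ℝ) ^ m - 1) * (x * (1 - x)) := by
      refine mul_nonneg (by linarith) (mul_nonneg hx0 (by linarith))
    nlinarith

/-- **the moments of the number of representations** -/
theorem EX_moment {p : ℕ → ℝ} (h0 : ∀ a, 0 ≤ p a) (h1 : ∀ a, p a ≤ 1) (G : Finset ℕ) (n m : ℕ) :
    EX p G (fun S => (rf S n : ℝ) ^ m) ≤
      4 ^ m * Real.exp (2 ^ m) * (1 + mu p G n ^ m) := by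
  classical
  obtain ⟨μ, hμ⟩ : ∃ μ, μ = mu p G n := ⟨_, rfl⟩
  have hμ0 : 0 ≤ μ := by rw [hμ]; exact mu_nonneg h0 G n
  rw [← hμ]
  obtain ⟨y, hy⟩ : ∃ y : ℝ, y = 1 / (1 + μ) := ⟨_, rfl⟩
  have hy0 : 0 < y := by rw [hy]; positivity
  have hy1 : y ≤ 1 := by
    rw [hy, div_le_one (by positivity)]
    linarith
  obtain ⟨η, hη⟩ : ∃ η : ℝ, η = (1 + y) ^ m - 1 := ⟨_, rfl⟩
  have hη0 : 0 ≤ η := by
    rw [hη]
    have : (1 : ℝ) ≤ (1 + y) ^ m := one_le_pow₀ (by linarith)
    linarith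
  have hη1 : η ≤ 2 ^ m * y := by
    have := pow_le_lin m hy0.le hy1
    rw [hη]
    nlinarith
  have hpt : ∀ S ⊆ G, (rf S n : ℝ) ^ m ≤
      (2 * (1 + μ)) ^ m * (1 + η) ^ #{a ∈ Hn G n | a ∈ S ∧ n - a ∈ S} := by
    intro S hS
    obtain ⟨N, hN⟩ : ∃ N, N = #{a ∈ Hn G n | a ∈ S ∧ n - a ∈ S} := ⟨_, rfl⟩
    rw [← hN]
    have h2 : (rf S n : ℝ) ≤ 2 * (N + 1) := by
      have := rf_le hS n
      rw [← hN] at this
      have h3 : rf S n ≤ 2 * (N + 1) := by omega
      exact_mod_cast h3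
    have h3 : (N + 1 : ℝ) ≤ (1 + μ) * (1 + y) ^ N := by
      have h4 : 1 + (N : ℝ) * y ≤ (1 + y) ^ N := one_add_mul_le_pow (by linarith) N
      have h5 : (1 + μ) * (1 + (N : ℝ) * y) ≤ (1 + μ) * (1 + y) ^ N :=
        mul_le_mul_of_nonneg_left h4 (by linarith)
      refine le_trans ?_ h5
      have h6 : (1 + μ) * (1 + (N : ℝ) * y) = 1 + μ + N * ((1 + μ) * y) := by ring
      have h7 : (1 + μ) * y = 1 := by
        rw [hy]
        field_simp
      rw [h6, h7]
      linarith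
    have h4 : (1 + η) ^ N = ((1 + y) ^ N) ^ m := by
      rw [hη, ← pow_mul, mul_comm N m, pow_mul]
      congr 1
      ring
    rw [h4, ← mul_pow]
    refine pow_le_pow_left₀ (Nat.cast_nonneg _) ?_ m
    calc (rf S n : ℝ) ≤ 2 * (N + 1) := h2
      _ ≤ 2 * ((1 + μ) * (1 + y) ^ N) := mul_le_mul_of_nonneg_left h3 (by norm_num)
      _ = _ := by ring
  refine (EX_mono h0 h1 G hpt).trans ?_
  rw [EX_const_mul, EX_gen]
  have h2 : ∏ a ∈ Hn G n, (1 + η * (p a * p (n - a))) ≤ Real.exp (2 ^ m) := by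
    have h3 : ∏ a ∈ Hn G n, (1 + η * (p a * p (n - a))) ≤
        ∏ a ∈ Hn G n, Real.exp (η * (p a * p (n - a))) := by
      refine prod_le_prod (fun a _ => ?_) fun a _ => ?_
      · have := mul_nonneg hη0 (mul_nonneg (h0 a) (h0 (n - a)))
        linarith
      · have := Real.add_one_le_exp (η * (p a * p (n - a)))
        linarith
    refine h3.trans ?_
    rw [← Real.exp_sum, ← mul_sum, Real.exp_le_exp]
    have h4 : ∑ a ∈ Hn G n, p a * p (n - a) ≤ μ := by
      rw [hμ]
      exact half_le_mu h0 G n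
    have h5 : 0 ≤ ∑ a ∈ Hn G n, p a * p (n - a) :=
      sum_nonneg fun a _ => mul_nonneg (h0 _) (h0 _)
    calc η * ∑ a ∈ Hn G n, p a * p (n - a) ≤ (2 ^ m * y) * μ :=
          mul_le_mul hη1 h4 h5 (by positivity)
      _ = 2 ^ m * (y * μ) := by ring
      _ ≤ 2 ^ m * 1 := by
          refine mul_le_mul_of_nonneg_left ?_ (by positivity)
          rw [hy, one_div, inv_mul_le_iff₀ (by positivity)]
          linarith
      _ = 2 ^ m := mul_one _
  have h3 : (2 * (1 + μ)) ^ m ≤ 4 ^ m * (1 + μ ^ m) := by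
    have h4 : (1 + μ) ^ m ≤ 2 ^ m * (1 + μ ^ m) := by
      rcases le_total μ 1 with h | h
      · calc (1 + μ) ^ m ≤ 2 ^ m := pow_le_pow_left₀ (by linarith) (by linarith) m
          _ ≤ 2 ^ m * (1 + μ ^ m) := by
            refine le_mul_of_one_le_right (by positivity) ?_
            have : 0 ≤ μ ^ m := by positivity
            linarith
      · calc (1 + μ) ^ m ≤ (2 * μ) ^ m := pow_le_pow_left₀ (by linarith) (by linarith) m
          _ = 2 ^ m * μ ^ m := mul_pow _ _ _
          _ ≤ 2 ^ m * (1 + μ ^ m) := by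
            refine mul_le_mul_of_nonneg_left ?_ (by positivity)
            linarith
    rw [mul_pow]
    calc (2 : ℝ) ^ m * (1 + μ) ^ m ≤ 2 ^ m * (2 ^ m * (1 + μ ^ m)) :=
          mul_le_mul_of_nonneg_left h4 (by positivity)
      _ = 4 ^ m * (1 + μ ^ m) := by
          rw [show (4 : ℝ) = 2 * 2 by norm_num, mul_pow]
          ring
  calc (2 * (1 + μ)) ^ m * ∏ a ∈ Hn G n, (1 + η * (p a * p (n - a))) ≤
        (4 ^ m * (1 + μ ^ m)) * Real.exp (2 ^ m) := by
        refine mul_le_mul h3 h2 (prod_nonneg fun a _ => ?_) (by positivity)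
        have := mul_nonneg hη0 (mul_nonneg (h0 a) (h0 (n - a)))
        linarith
    _ = _ := by ring

end Pool.Agent.Helper99.FP
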