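import Pool.Agent.Helper80.TQ.Blk
import Pool.Agent.Helper99.FP.Mom1
import Pool.Agent.Helper99.FP.Mom2

/-!
# Many digits `0` and bounded moments of all orders
-/

set_option autoImplicit false

open Finset

namespace Pool.Agent.Helper99.FP

open Pool.Agent.Helper38.SP (EX EX_add EX_sum EX_const_mul EX_var EX_mono exists_lt)
open Pool.Agent.Helper80.TQ (wt zs zs_eq wt_nonneg wt_le sum_wt sum_good R)

theorem mu_le {p : ℕ → ℝ} (h0 : ∀ a, 0 ≤ p a) {G G' : Finset ℕ} (h : G ⊆ G') (n : ℕ) :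
    mu p G n ≤ mu p G' n := by
  unfold mu
  refine sum_le_sum_of_subset_of_nonneg ?_ fun v _ _ => mul_nonneg (h0 _) (h0 _)
  intro v hv
  rw [mem_filter, mem_product] at hv ⊢
  exact ⟨⟨h hv.1.1, h hv.1.2⟩, hv.2⟩

/-- one block -/
theorem block_mom {m : ℕ} (hm : 1 ≤ m) (k : ℕ) (d τ : ℝ) (hd0 : 0 < d) (hd1 : d ≤ 2 / 5)
    (hkd : 8 ≤ k * d ^ 2) (hτ0 : 0 < τ) (hτ1 : τ ≤ 1)
    (hX : (τ ^ 2) ^ m * Real.exp (m ^ 2 * d ^ 4 / 2 * k) ≤ 1) (hk : 32 ≤ τ * √((2 : ℝ) ^ k)) :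
    ∃ B ⊆ range (2 ^ k), ∑ n ∈ range (2 * 2 ^ k), (rf B n : ℝ) ^ m ≤
        12 * (4 ^ m * Real.exp (2 ^ m)) * 2 ^ k ∧
      τ * √((2 : ℝ) ^ k) ≤ 4 * #B ∧ ∀ b ∈ B, k * d / 2 ≤ 2 * (zs k b : ℝ) - k := by
  classical
  obtain ⟨s, hs⟩ : ∃ s, s = √((2 : ℝ) ^ k) := ⟨_, rfl⟩
  rw [← hs] at hk ⊢
  have hs2 : s ^ 2 = 2 ^ k := by rw [hs]; exact Real.sq_sqrt (by positivity)
  have hs1 : 1 ≤ s := by
    rw [hs]
    apply Real.le_sqrt_of_sq_le
    rw [one_pow]
    exact one_le_pow₀ (by norm_num)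
  have hs0 : 0 < s := by linarith
  have hd1' : d ≤ 1 := by linarith
  have hw0 := wt_nonneg hd0.le hd1' k
  obtain ⟨p, hp⟩ : ∃ p : ℕ → ℝ, p = fun a => τ * wt d k a / s := ⟨_, rfl⟩
  have h0 : ∀ a, 0 ≤ p a := fun a => by
    rw [hp]; exact div_nonneg (mul_nonneg hτ0.le (hw0 a)) hs0.le
  have h1 : ∀ a, p a ≤ 1 := by
    intro a
    rw [hp]
    simp only
    rw [div_le_one hs0]
    refine (mul_le_of_le_one_left (hw0 a) hτ1).trans ((wt_le hd0.le hd1' k a).trans ?_)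
    rw [hs]
    apply Real.le_sqrt_of_sq_le
    rw [← pow_mul, mul_comm k 2, pow_mul]
    refine pow_le_pow_left₀ (by positivity) ?_ k
    nlinarith
  obtain ⟨G, hG⟩ : ∃ G : Finset ℕ,
    G = (range (2 ^ k)).filter (fun a => k * d / 2 ≤ 2 * (zs k a : ℝ) - k) := ⟨_, rfl⟩
  have hGr : G ⊆ range (2 ^ k) := by rw [hG]; exact filter_subset _ _
  have hpsum : ∀ T : Finset ℕ, ∑ a ∈ T, p a = τ * (∑ a ∈ T, wt d k a) / s := by
    intro T
    rw [hp, ← sum_div, ← mul_sum]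
  have hsum : ∑ a ∈ G, p a ≤ τ * s := by
    have h2 : ∑ a ∈ G, p a ≤ ∑ a ∈ range (2 ^ k), p a :=
      sum_le_sum_of_subset_of_nonneg hGr fun a _ _ => h0 a
    refine h2.trans ?_
    rw [hpsum, sum_wt, ← hs2, sq, mul_div_assoc, mul_div_assoc, div_self hs0.ne', mul_one]
  have hsum' : τ * s / 2 ≤ ∑ a ∈ G, p a := by
    have h2 := sum_good hd0 hd1' k hkd
    rw [← hG, ← hs2] at h2
    rw [hpsum, le_div_iff₀ hs0]
    have h3 := mul_le_mul_of_nonneg_left h2 hτ0.le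
    refine le_trans (le_of_eq ?_) h3
    ring
  have h2k : (0 : ℝ) < 2 ^ k := by positivity
  -- the moments of the means
  have hmu : ∑ n ∈ range (2 * 2 ^ k), mu p G n ^ m ≤ 2 ^ k := by
    have h2 : ∀ n ∈ range (2 * 2 ^ k), mu p G n ^ m ≤ (τ ^ 2 / 2 ^ k) ^ m * R d k n ^ m := by
      intro n _
      rw [← mul_pow]
      refine pow_le_pow_left₀ (mu_nonneg h0 G n) ?_ m
      refine (mu_le h0 hGr n).trans (le_of_eq ?_)
      unfold mu R
      rw [sum_filter, sum_product, mul_sum]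
      refine sum_congr rfl fun a _ => ?_
      rw [mul_sum]
      refine sum_congr rfl fun b _ => ?_
      by_cases hab : a + b = n
      · rw [if_pos hab, if_pos hab, hp, ← hs2]
        simp only
        field_simp
      · rw [if_neg hab, if_neg hab, mul_zero]
    refine (sum_le_sum h2).trans ?_
    rw [← mul_sum]
    refine (mul_le_mul_of_nonneg_left (moments hm hd0.le hd1' k) (by positivity)).trans ?_
    have h3 : (τ ^ 2 / 2 ^ k) ^ m * ((2 ^ k) ^ (m + 1) * Real.exp (m ^ 2 * d ^ 4 / 2 * k)) =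
        2 ^ k * ((τ ^ 2) ^ m * Real.exp (m ^ 2 * d ^ 4 / 2 * k)) := by
      rw [div_pow, pow_succ ((2 : ℝ) ^ k) m]
      field_simp
    rw [h3]
    exact mul_le_of_le_one_right h2k.le hX
  obtain ⟨E, hE⟩ : ∃ E : ℝ, E = 3 * (4 ^ m * Real.exp (2 ^ m)) * 2 ^ k := ⟨_, rfl⟩
  have hE0 : 0 < E := by rw [hE]; positivity
  have hEX : EX p G (fun S => ∑ n ∈ range (2 * 2 ^ k), (rf S n : ℝ) ^ m) ≤ E := by
    rw [EX_sum]
    refine (sum_le_sum fun n _ => EX_moment h0 h1 G n m).trans ?_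
    rw [← mul_sum, sum_add_distrib, sum_const, card_range, nsmul_eq_mul, mul_one, hE]
    have h3 : (0 : ℝ) < 4 ^ m * Real.exp (2 ^ m) := by positivity
    have h4 : ((2 * 2 ^ k : ℕ) : ℝ) + ∑ n ∈ range (2 * 2 ^ k), mu p G n ^ m ≤ 3 * 2 ^ k := by
      push_cast
      linarith
    refine (mul_le_mul_of_nonneg_left h4 h3.le).trans (le_of_eq ?_)
    ring
  have hvar : EX p G (fun S => (∑ a ∈ S, (1 : ℝ) - ∑ a ∈ G, p a * 1) ^ 2) ≤ τ * s := by
    rw [EX_var p G (fun _ => 1)]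
    refine le_trans (sum_le_sum fun a _ => ?_) hsum
    have := h0 a
    have := h1 a
    nlinarith
  have hts : 0 < τ * s := by positivity
  have hex : EX p G (fun S => (4 * E)⁻¹ * ∑ n ∈ range (2 * 2 ^ k), (rf S n : ℝ) ^ m +
      ((τ * s / 4) ^ 2)⁻¹ * (∑ a ∈ S, (1 : ℝ) - ∑ a ∈ G, p a * 1) ^ 2) < 1 := by
    rw [EX_add, EX_const_mul, EX_const_mul]
    have h3 : (4 * E)⁻¹ * EX p G (fun S => ∑ n ∈ range (2 * 2 ^ k), (rf S n : ℝ) ^ m) ≤ 1 / 4 := by
      refine (mul_le_mul_of_nonneg_left hEX (by positivity)).trans (le_of_eq ?_)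
      field_simp
    have h4 : ((τ * s / 4) ^ 2)⁻¹ *
        EX p G (fun S => (∑ a ∈ S, (1 : ℝ) - ∑ a ∈ G, p a * 1) ^ 2) ≤ 1 / 2 := by
      refine (mul_le_mul_of_nonneg_left hvar (by positivity)).trans ?_
      rw [inv_mul_le_iff₀ (by positivity)]
      nlinarith
    linarith
  obtain ⟨B, hBG, hB⟩ := exists_lt h0 h1 G hex
  have t1 : 0 ≤ ∑ n ∈ range (2 * 2 ^ k), (rf B n : ℝ) ^ m := by positivity
  have t2 : 0 ≤ (4 * E)⁻¹ * ∑ n ∈ range (2 * 2 ^ k), (rf B n : ℝ) ^ m := by positivity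
  have t3 : 0 ≤ ((τ * s / 4) ^ 2)⁻¹ * (∑ a ∈ B, (1 : ℝ) - ∑ a ∈ G, p a * 1) ^ 2 := by
    positivity
  refine ⟨B, hBG.trans hGr, ?_, ?_, fun b hb => ?_⟩
  · have h3 : (4 * E)⁻¹ * ∑ n ∈ range (2 * 2 ^ k), (rf B n : ℝ) ^ m ≤ 1 := by linarith
    rw [inv_mul_le_iff₀ (by positivity), mul_one] at h3
    refine h3.trans (le_of_eq ?_)
    rw [hE]
    ring
  · have h3 : ((τ * s / 4) ^ 2)⁻¹ * (∑ a ∈ B, (1 : ℝ) - ∑ a ∈ G, p a * 1) ^ 2 ≤ 1 := by linarith
    rw [inv_mul_le_iff₀ (by positivity), mul_one] at h3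
    have h4 := abs_le_of_sq_le_sq h3 (by positivity)
    rw [abs_le] at h4
    simp only [mul_one, sum_const, nsmul_eq_mul] at h4
    linarith [h4.1]
  · have := hBG hb
    rw [hG, mem_filter] at this
    exact this.2

theorem zs_zero (K : ℕ) : zs K 0 = K := by
  rw [zs_eq]
  simp

theorem rf_singleton (n : ℕ) : rf {0} n ≤ 1 := by
  unfold rf
  have h : ({0} : Finset ℕ) ×ˢ ({0} : Finset ℕ) = {(0, 0)} := by simp
  rw [h]
  exact (card_filter_le _ _).trans (by simp)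

/-- **many digits `0` and bounded moments** -/
theorem moment_sharp₁ {m : ℕ} (hm : 1 ≤ m) : ∃ c C : ℝ, 0 < c ∧ c ≤ 1 / 2 ∧ 2 ≤ C ∧ ∀ K : ℕ,
    1 ≤ K → ∀ δ : ℝ, 0 ≤ δ → δ ≤ c → ∃ B ⊆ range (2 ^ K),
      (∀ b ∈ B, (1 / 2 + δ) * K ≤ zs K b) ∧
      c * (2 : ℝ) ^ ((K : ℝ) / 2 - C * K * δ ^ 4) ≤ #B ∧
      ∑ n ∈ range (2 * 2 ^ K), (rf B n : ℝ) ^ m ≤ C * 2 ^ K := by
  classical
  have hm0 : (1 : ℝ) ≤ m := by exact_mod_cast hm
  obtain ⟨M, hM⟩ : ∃ M : ℝ, M = 12 * (4 ^ m * Real.exp (2 ^ m)) := ⟨_, rfl⟩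
  have hM12 : 12 ≤ M := by
    rw [hM]
    have h1 : (1 : ℝ) ≤ 4 ^ m := one_le_pow₀ (by norm_num)
    have h2 : (1 : ℝ) ≤ Real.exp (2 ^ m) := Real.one_le_exp (by positivity)
    nlinarith
  obtain ⟨C, hC⟩ : ∃ C : ℝ, C = 100 * m + M := ⟨_, rfl⟩
  obtain ⟨c, hc⟩ : ∃ c : ℝ, c = min (1 / (10 * (m : ℝ))) (min (Real.exp (-(16 * (m : ℝ))) / 4)
    ((2 : ℝ) ^ (50 * m ^ 2))⁻¹) := ⟨_, rfl⟩
  have hc0 : 0 < c := by
    rw [hc]
    refine lt_min (by positivity) (lt_min (by positivity) (by positivity))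
  have hc1 : c ≤ 1 / (10 * m) := by rw [hc]; exact min_le_left _ _
  have hc2 : c ≤ Real.exp (-(16 * m)) / 4 := by
    rw [hc]; exact (min_le_right _ _).trans (min_le_left _ _)
  have hc3 : c ≤ ((2 : ℝ) ^ (50 * m ^ 2))⁻¹ := by
    rw [hc]; exact (min_le_right _ _).trans (min_le_right _ _)
  have hc4 : (1 : ℝ) / (10 * m) ≤ 1 / 10 := by
    refine one_div_le_one_div_of_le (by norm_num) (by linarith)
  refine ⟨c, C, hc0, by linarith, by rw [hC]; linarith, fun K hK δ hδ0 hδ1 => ?_⟩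
  have hK0 : (0 : ℝ) < K := by exact_mod_cast hK
  have hC0 : 0 ≤ C := by rw [hC]; positivity
  rcases lt_or_ge K (50 * m ^ 2) with hlt | hge
  · refine ⟨{0}, ?_, ?_, ?_, ?_⟩
    · rw [singleton_subset_iff, mem_range]
      positivity
    · intro b hb
      rw [mem_singleton] at hb
      rw [hb, zs_zero]
      nlinarith
    · rw [card_singleton, Nat.cast_one]
      have h1 : (2 : ℝ) ^ ((K : ℝ) / 2 - C * K * δ ^ 4) ≤ (2 : ℝ) ^ (50 * m ^ 2) := by
        rw [← Real.rpow_natCast 2 (50 * m ^ 2)]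
        refine Real.rpow_le_rpow_of_exponent_le (by norm_num) ?_
        have h2 : 0 ≤ C * K * δ ^ 4 := by positivity
        have h3 : (K : ℝ) ≤ ((50 * m ^ 2 : ℕ) : ℝ) := by exact_mod_cast hlt.le
        linarith
      have h4 : (0 : ℝ) < (2 : ℝ) ^ (50 * m ^ 2) := by positivity
      calc c * (2 : ℝ) ^ ((K : ℝ) / 2 - C * K * δ ^ 4) ≤
            ((2 : ℝ) ^ (50 * m ^ 2))⁻¹ * (2 : ℝ) ^ (50 * m ^ 2) :=
            mul_le_mul hc3 h1 (Real.rpow_nonneg (by norm_num) _) (by positivity)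
        _ = 1 := inv_mul_cancel₀ h4.ne'
    · have h1 : ∀ n ∈ range (2 * 2 ^ K), (rf {0} n : ℝ) ^ m ≤ 1 := fun n _ => by
        have h2 : (rf {0} n : ℝ) ≤ 1 := by exact_mod_cast rf_singleton n
        exact pow_le_one₀ (Nat.cast_nonneg _) h2
      refine (sum_le_sum h1).trans ?_
      rw [sum_const, card_range, nsmul_eq_mul, mul_one]
      push_cast
      have h3 : (0 : ℝ) < 2 ^ K := by positivity
      refine mul_le_mul_of_nonneg_right ?_ h3.le
      rw [hC]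
      linarith
  · have hge' : 50 * (m : ℝ) ^ 2 ≤ K := by exact_mod_cast hge
    obtain ⟨u, hu⟩ : ∃ u : ℝ, u = 1 / √(2 * K) := ⟨_, rfl⟩
    have hsq : √(2 * (K : ℝ)) ^ 2 = 2 * K := Real.sq_sqrt (by positivity)
    have hsq0 : 0 < √(2 * (K : ℝ)) := Real.sqrt_pos.2 (by positivity)
    have hu0 : 0 < u := by rw [hu]; positivity
    have hu2 : u ^ 2 = 1 / (2 * K) := by rw [hu, div_pow, hsq, one_pow]
    have hu4 : u ^ 4 * K = 1 / (4 * K) := by
      rw [show u ^ 4 = u ^ 2 * u ^ 2 by ring, hu2]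
      field_simp
      norm_num
    have hu1 : u ≤ 1 / (10 * m) := by
      rw [hu]
      refine one_div_le_one_div_of_le (by positivity) ?_
      apply Real.le_sqrt_of_sq_le
      nlinarith
    obtain ⟨e, he⟩ : ∃ e : ℝ, e = max δ u := ⟨_, rfl⟩
    have heu : u ≤ e := by rw [he]; exact le_max_right _ _
    have heδ : δ ≤ e := by rw [he]; exact le_max_left _ _
    have he0 : 0 < e := lt_of_lt_of_le hu0 heu
    have he1 : e ≤ 1 / (10 * m) := by rw [he]; exact max_le (hδ1.trans hc1) hu1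
    have he4 : e ^ 4 ≤ δ ^ 4 + u ^ 4 := by
      rcases le_total δ u with h | h
      · rw [he, max_eq_right h]
        have : 0 ≤ δ ^ 4 := by positivity
        linarith
      · rw [he, max_eq_left h]
        have : 0 ≤ u ^ 4 := by positivity
        linarith
    have hKe2 : 1 / 2 ≤ K * e ^ 2 := by
      have h1 : u ^ 2 ≤ e ^ 2 := pow_le_pow_left₀ hu0.le heu 2
      have h2 : K * u ^ 2 = 1 / 2 := by
        rw [hu2]
        field_simp
      nlinarith
    have hlog : (0.69 : ℝ) ≤ Real.log 2 := by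
      have := Real.log_two_gt_d9
      linarith
    have hs : √((2 : ℝ) ^ K) = Real.exp (K * Real.log 2 / 2) := by
      rw [← Real.exp_log (by positivity : (0 : ℝ) < 2 ^ K), Real.log_pow, Real.sqrt_eq_rpow,
        ← Real.exp_mul]
      congr 1
      ring
    have hme : m * e ^ 4 ≤ 1 / 10000 := by
      have h1 : (m : ℝ) * e ≤ 1 / 10 := by
        have := mul_le_mul_of_nonneg_left he1 (by linarith : (0 : ℝ) ≤ m)
        refine this.trans (le_of_eq ?_)
        field_simp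
      have h2 : e ≤ 1 / 10 := he1.trans hc4
      have h3 : e ^ 3 ≤ (1 / 10) ^ 3 := pow_le_pow_left₀ he0.le h2 3
      calc m * e ^ 4 = m * e * e ^ 3 := by ring
        _ ≤ 1 / 10 * (1 / 10) ^ 3 := mul_le_mul h1 h3 (by positivity) (by norm_num)
        _ = 1 / 10000 := by norm_num
    obtain ⟨B, hB1, hB2, hB3, hB4⟩ := block_mom hm K (4 * e) (Real.exp (-(64 * m * e ^ 4 * K)))
      (by positivity)
      (by linarith [he1.trans hc4])
      (by nlinarith)
      (Real.exp_pos _)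
      (by
        rw [Real.exp_le_one_iff]
        have : 0 ≤ 64 * (m : ℝ) * e ^ 4 * K := by positivity
        linarith)
      (by
        rw [← Real.exp_nat_mul, ← Real.exp_nat_mul, ← Real.exp_add]
        refine le_of_eq ?_
        rw [Real.exp_eq_one_iff]
        push_cast
        ring)
      (by
        rw [hs, ← Real.exp_add]
        have h3 : (50 : ℝ) ≤ K := by nlinarith
        have h5 : m * e ^ 4 * K ≤ 1 / 10000 * K := mul_le_mul_of_nonneg_right hme hK0.le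
        have h4 : (5 : ℝ) ≤ -(64 * m * e ^ 4 * K) + K * Real.log 2 / 2 := by nlinarith
        have h5 : (32 : ℝ) ≤ Real.exp 5 := by
          have h6 : (2 : ℝ) ≤ Real.exp 1 := by
            have := Real.add_one_le_exp (1 : ℝ)
            linarith
          have h7 : Real.exp 5 = Real.exp 1 ^ 5 := by
            rw [← Real.exp_nat_mul]
            norm_num
          rw [h7]
          have := pow_le_pow_left₀ (by norm_num) h6 5
          norm_num at this ⊢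
          exact this
        exact h5.trans (Real.exp_le_exp.2 h4))
    refine ⟨B, hB1, fun b hb => ?_, ?_, ?_⟩
    · have h1 := hB4 b hb
      have h2 : δ * K ≤ e * K := mul_le_mul_of_nonneg_right heδ hK0.le
      nlinarith
    · have h1 : (2 : ℝ) ^ ((K : ℝ) / 2 - C * K * δ ^ 4) ≤
          √((2 : ℝ) ^ K) * Real.exp (-(64 * m * K * δ ^ 4)) := by
        rw [hs, ← Real.exp_add, Real.rpow_def_of_pos (by norm_num)]
        refine Real.exp_le_exp.2 ?_
        have h2 : 64 * (m : ℝ) ≤ Real.log 2 * C := by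
          rw [hC]
          nlinarith
        have h3 : 0 ≤ (K : ℝ) * δ ^ 4 := by positivity
        have h4 := mul_le_mul_of_nonneg_right h2 h3
        nlinarith
      have h2 : Real.exp (-(64 * m * K * δ ^ 4)) * Real.exp (-(16 * m)) ≤
          Real.exp (-(64 * m * e ^ 4 * K)) := by
        rw [← Real.exp_add, Real.exp_le_exp]
        have h3 : e ^ 4 * K ≤ δ ^ 4 * K + 1 / 4 := by
          have h4 := mul_le_mul_of_nonneg_right he4 hK0.le
          have h5 : (1 : ℝ) / (4 * K) ≤ 1 / 4 := by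
            refine one_div_le_one_div_of_le (by norm_num) ?_
            have : (1 : ℝ) ≤ K := by exact_mod_cast hK
            linarith
          rw [add_mul, hu4] at h4
          linarith
        have h6 := mul_le_mul_of_nonneg_left h3 (by positivity : (0 : ℝ) ≤ 64 * m)
        nlinarith
      have hsp : 0 < √((2 : ℝ) ^ K) := Real.sqrt_pos.2 (by positivity)
      calc c * (2 : ℝ) ^ ((K : ℝ) / 2 - C * K * δ ^ 4) ≤ Real.exp (-(16 * m)) / 4 *
            (√((2 : ℝ) ^ K) * Real.exp (-(64 * m * K * δ ^ 4))) :=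
            mul_le_mul hc2 h1 (Real.rpow_nonneg (by norm_num) _) (by positivity)
        _ = (Real.exp (-(64 * m * K * δ ^ 4)) * Real.exp (-(16 * m))) * √((2 : ℝ) ^ K) / 4 := by
            ring
        _ ≤ Real.exp (-(64 * m * e ^ 4 * K)) * √((2 : ℝ) ^ K) / 4 := by
            refine div_le_div_of_nonneg_right ?_ (by norm_num)
            exact mul_le_mul_of_nonneg_right h2 hsp.le
        _ ≤ #B := by
            rw [div_le_iff₀ (by norm_num)]
            linarith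
    · refine hB2.trans ?_
      refine mul_le_mul_of_nonneg_right ?_ (by positivity)
      rw [hC, ← hM]
      linarith

/-- **many digits `0` and bounded moments of all orders** -/
theorem moment_sharp (m : ℕ) : ∃ c C : ℝ, 0 < c ∧ 0 < C ∧ ∀ K : ℕ,
    1 ≤ K → ∀ δ : ℝ, 0 ≤ δ → δ ≤ c → ∃ B ⊆ range (2 ^ K),
      (∀ b ∈ B, (1 / 2 + δ) * K ≤ zs K b) ∧
      c * (2 : ℝ) ^ ((K : ℝ) / 2 - C * K * δ ^ 4) ≤ #B ∧
      ∑ n ∈ range (2 * 2 ^ K), (#{v ∈ B ×ˢ B | v.1 + v.2 = n} : ℝ) ^ m ≤ C * 2 ^ K := by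
  rcases Nat.eq_zero_or_pos m with h | h
  · obtain ⟨c, C, h1, _, h2, h3⟩ := moment_sharp₁ (le_refl 1)
    refine ⟨c, C, h1, by linarith, fun K hK δ hδ0 hδ1 => ?_⟩
    obtain ⟨B, hB1, hB2, hB3, _⟩ := h3 K hK δ hδ0 hδ1
    refine ⟨B, hB1, hB2, hB3, ?_⟩
    rw [h]
    simp only [pow_zero, sum_const, card_range, nsmul_eq_mul, mul_one]
    push_cast
    exact mul_le_mul_of_nonneg_right h2 (by positivity)
  · obtain ⟨c, C, h1, _, h2, h3⟩ := moment_sharp₁ h
    exact ⟨c, C, h1, by linarith, h3⟩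

end Pool.Agent.Helper99.FP
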