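import Pool.Agent.Helper5.TQ.Four2
import Pool.Agent.Helper99.SC.Pars
import Pool.Agent.Helper18.SC.StD

set_option autoImplicit false

/-!
Riesz products along a lacunary progression of scales, in `l ^ (4/3)` and `l ^ 4`.
-/

namespace Pool.Agent.Helper99.FP

open Finset Pool.Agent.Helper99.SC
open Pool.Agent.Helper7.SC (e)
open Pool.Agent.Helper16.NM (ee r sum_r_sq_eq)
open Pool.Agent.Helper5.TQ (F2 fourth2)

lemma ee_eq (N : ℕ) (m : ℤ) : ee N m = e ((m : ℝ) / N) := by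
  unfold ee e
  congr 1
  push_cast
  ring

/-! ### Injectivity -/

/-- The Horner form. -/
def hn (Q : ℤ) {m : ℕ} (d : Fin m → ℤ) : ℤ := ∑ j : Fin m, d j * Q ^ (m - 1 - (j : ℕ))

lemma hn_succ (Q : ℤ) {m : ℕ} (d : Fin (m + 1) → ℤ) :
    hn Q d = Q * hn Q (fun j => d j.castSucc) + d (Fin.last m) := by
  unfold hn
  rw [Fin.sum_univ_castSucc, mul_sum]
  congr 1
  · refine sum_congr rfl fun j _ => ?_
    have h1 : m + 1 - 1 - (j.castSucc : ℕ) = (m - 1 - (j : ℕ)) + 1 := by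
      have := j.2
      simp only [Fin.val_castSucc]
      omega
    rw [h1, pow_succ]
    ring
  · simp

lemma hn_bound {Q : ℤ} (hQ : 1 ≤ Q) : ∀ {m : ℕ} (d : Fin m → ℤ), (∀ j, |d j| ≤ Q - 1) →
    |hn Q d| ≤ Q ^ m - 1
  | 0, d, _ => by simp [hn]
  | m + 1, d, h => by
    have ih := hn_bound hQ (fun j : Fin m => d j.castSucc) (fun j => h _)
    rw [hn_succ]
    have h1 := h (Fin.last m)
    calc |Q * hn Q (fun j => d j.castSucc) + d (Fin.last m)|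
        ≤ |Q * hn Q (fun j => d j.castSucc)| + |d (Fin.last m)| := abs_add_le _ _
      _ ≤ Q * (Q ^ m - 1) + (Q - 1) := by
          rw [abs_mul, abs_of_nonneg (by linarith : (0 : ℤ) ≤ Q)]
          have := mul_le_mul_of_nonneg_left ih (by linarith : (0 : ℤ) ≤ Q)
          linarith
      _ = Q ^ (m + 1) - 1 := by ring

lemma hn_zero {Q : ℤ} (hQ : 1 ≤ Q) : ∀ {m : ℕ} (d : Fin m → ℤ), (∀ j, |d j| ≤ Q - 1) →
    hn Q d = 0 → ∀ j, d j = 0
  | 0, d, _, _ => fun j => j.elim0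
  | m + 1, d, h, h0 => by
    rw [hn_succ] at h0
    have h1 := h (Fin.last m)
    have h2 : hn Q (fun j : Fin m => d j.castSucc) = 0 := by
      by_contra hne
      have h3 : 1 ≤ |hn Q (fun j : Fin m => d j.castSucc)| := Int.one_le_abs hne
      have h4 : d (Fin.last m) = -(Q * hn Q (fun j : Fin m => d j.castSucc)) := by linarith
      rw [h4, abs_neg, abs_mul, abs_of_nonneg (by linarith : (0 : ℤ) ≤ Q)] at h1
      nlinarith
    have h5 : d (Fin.last m) = 0 := by rw [h2] at h0; linarith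
    have ih := hn_zero hQ (fun j : Fin m => d j.castSucc) (fun j => h _) h2
    intro j
    refine Fin.lastCases h5 (fun i => ih i) j

/-- The frequency of a choice of coefficients, in units of `1 / b ^ (K + l)`. -/
def fr (b K q r' : ℕ) {m : ℕ} (κ : Fin m → ℤ) : ℤ :=
  ∑ j : Fin m, κ j * (b : ℤ) ^ (K - (r' + q * ((j : ℕ) + 1)))

lemma fr_eq {b K q r' m : ℕ} (hK : r' + q * m ≤ K) (κ : Fin m → ℤ) :
    fr b K q r' κ = (b : ℤ) ^ (K - (r' + q * m)) * hn ((b : ℤ) ^ q) κ := by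
  unfold fr hn
  rw [mul_sum]
  refine sum_congr rfl fun j _ => ?_
  have h1 : K - (r' + q * ((j : ℕ) + 1)) = (K - (r' + q * m)) + q * (m - 1 - (j : ℕ)) := by
    have hj := j.2
    have h2 : q * m = q * ((j : ℕ) + 1) + q * (m - 1 - (j : ℕ)) := by
      rw [← mul_add]
      congr 1
      omega
    omega
  rw [h1, pow_add, pow_mul]
  ring

lemma fr_inj {b K q r' m D l : ℕ} (hb : 2 ≤ b) (hD : 2 * D < b ^ q) (hK : r' + q * m ≤ K)
    {κ μ : Fin m → ℤ} (hκ : ∀ j, |κ j| ≤ D) (hμ : ∀ j, |μ j| ≤ D)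
    (h : ((b ^ (K + l) : ℕ) : ℤ) ∣ fr b K q r' κ - fr b K q r' μ) : κ = μ := by
  have hQ : (1 : ℤ) ≤ (b : ℤ) ^ q := by
    have : 1 ≤ b ^ q := Nat.one_le_pow _ _ (by omega)
    exact_mod_cast this
  have hd : ∀ j, |κ j - μ j| ≤ (b : ℤ) ^ q - 1 := by
    intro j
    have h1 : |κ j - μ j| ≤ |κ j| + |μ j| := abs_sub _ _
    have h2 := hκ j
    have h3 := hμ j
    have h4 : (2 * D : ℤ) < (b : ℤ) ^ q := by exact_mod_cast hD
    omega
  have e1 : fr b K q r' κ - fr b K q r' μ =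
      (b : ℤ) ^ (K - (r' + q * m)) * hn ((b : ℤ) ^ q) (fun j => κ j - μ j) := by
    have e2 : fr b K q r' (fun j => κ j - μ j) = fr b K q r' κ - fr b K q r' μ := by
      unfold fr
      rw [← sum_sub_distrib]
      exact sum_congr rfl fun j _ => by ring
    rw [← e2, fr_eq hK]
  have e3 := hn_bound hQ (fun j => κ j - μ j) hd
  have e4 : |fr b K q r' κ - fr b K q r' μ| < ((b ^ (K + l) : ℕ) : ℤ) := by
    rw [e1, abs_mul, abs_of_nonneg (by positivity)]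
    have e5 : (0 : ℤ) < (b : ℤ) ^ (K - (r' + q * m)) := by positivity
    calc (b : ℤ) ^ (K - (r' + q * m)) * |hn ((b : ℤ) ^ q) (fun j => κ j - μ j)|
        ≤ (b : ℤ) ^ (K - (r' + q * m)) * (((b : ℤ) ^ q) ^ m - 1) :=
          mul_le_mul_of_nonneg_left e3 e5.le
      _ < (b : ℤ) ^ (K - (r' + q * m)) * ((b : ℤ) ^ q) ^ m := by nlinarith
      _ = (b : ℤ) ^ (K - r') := by
          rw [← pow_mul, ← pow_add]
          congr 1
          omega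
      _ ≤ (b : ℤ) ^ (K + l) := pow_le_pow_right₀ (by exact_mod_cast (by omega : 1 ≤ b)) (by omega)
      _ = ((b ^ (K + l) : ℕ) : ℤ) := by push_cast; rfl
  have e6 : fr b K q r' κ - fr b K q r' μ = 0 := by
    by_contra hne
    have h7 := Int.le_of_dvd (abs_pos.mpr hne) ((dvd_abs _ _).mpr h)
    omega
  rw [e1] at e6
  have e7 : hn ((b : ℤ) ^ q) (fun j => κ j - μ j) = 0 := by
    rcases mul_eq_zero.mp e6 with h8 | h8
    · exact absurd h8 (by positivity)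
    · exact h8
  funext j
  have := hn_zero hQ (fun j => κ j - μ j) hd e7 j
  linarith

/-! ### Fourth moments over the frequencies -/

lemma F2_mod (P : Finset (ℕ × ℕ)) {N : ℕ} (hN : 0 < N) {m m' n n' : ℤ} (h : (N : ℤ) ∣ m - n)
    (h' : (N : ℤ) ∣ m' - n') : F2 P N m m' = F2 P N n n' := by
  unfold F2
  refine sum_congr rfl fun p _ => ?_
  obtain ⟨k, hk⟩ := h
  obtain ⟨k', hk'⟩ := h'
  have hm : m = n + N * k := by linarith
  have hm' : m' = n' + N * k' := by linarith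
  rw [hm, hm', ee_eq, ee_eq]
  have hN' : (N : ℝ) ≠ 0 := by exact_mod_cast hN.ne'
  have h1 : (((n + N * k) * ((p.1 : ℤ) + p.2) + (n' + N * k') * p.1 : ℤ) : ℝ) / N =
      ((n * ((p.1 : ℤ) + p.2) + n' * p.1 : ℤ) : ℝ) / N +
        ((k * ((p.1 : ℤ) + p.2) + k' * p.1 : ℤ) : ℝ) := by
    push_cast
    field_simp
    ring
  rw [h1, e_add, e_int, mul_one]

lemma sum_freq {b K q r' m D l : ℕ} (hb : 2 ≤ b) (hD : 2 * D < b ^ q) (hK : r' + q * m ≤ K)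
    (P : Finset (ℕ × ℕ)) :
    ∑ κ ∈ Fintype.piFinset (fun _ : Fin m => Icc (-(D : ℤ)) D ×ˢ Icc (-(D : ℤ)) D),
      ‖F2 P (b ^ (K + l)) (fr b K q r' fun j => (κ j).1) (fr b K q r' fun j => (κ j).2)‖ ^ 4 ≤
      ∑ k ∈ range (b ^ (K + l)), ∑ k' ∈ range (b ^ (K + l)), ‖F2 P (b ^ (K + l)) k k'‖ ^ 4 := by
  set N : ℕ := b ^ (K + l) with hN
  have hN0 : 0 < N := by positivity
  have hNz : (0 : ℤ) < N := by exact_mod_cast hN0
  rw [← sum_product']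
  set φ : (Fin m → ℤ × ℤ) → ℕ × ℕ := fun κ =>
    (((fr b K q r' fun j => (κ j).1) % (N : ℤ)).toNat,
      ((fr b K q r' fun j => (κ j).2) % (N : ℤ)).toNat) with hφ
  have hmod : ∀ z : ℤ, ((z % (N : ℤ)).toNat : ℤ) = z % (N : ℤ) := fun z =>
    Int.toNat_of_nonneg (Int.emod_nonneg _ hNz.ne')
  have h1 : ∀ κ ∈ Fintype.piFinset (fun _ : Fin m => Icc (-(D : ℤ)) D ×ˢ Icc (-(D : ℤ)) D),
      ‖F2 P N (fr b K q r' fun j => (κ j).1) (fr b K q r' fun j => (κ j).2)‖ ^ 4 =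
        ‖F2 P N ((φ κ).1 : ℤ) ((φ κ).2 : ℤ)‖ ^ 4 := by
    intro κ _
    congr 2
    apply F2_mod P hN0
    · rw [hφ]
      simp only
      rw [hmod]
      exact Int.dvd_self_sub_emod
    · rw [hφ]
      simp only
      rw [hmod]
      exact Int.dvd_self_sub_emod
  rw [sum_congr rfl h1]
  have hinj : Set.InjOn φ (Fintype.piFinset
      (fun _ : Fin m => Icc (-(D : ℤ)) D ×ˢ Icc (-(D : ℤ)) D) : Set (Fin m → ℤ × ℤ)) := by
    intro κ hκ μ hμ h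
    simp only [Finset.mem_coe, Fintype.mem_piFinset, mem_product, mem_Icc] at hκ hμ
    rw [hφ] at h
    simp only [Prod.mk.injEq] at h
    have h2 : ∀ z z' : ℤ, (z % (N : ℤ)).toNat = (z' % (N : ℤ)).toNat → (N : ℤ) ∣ z - z' := by
      intro z z' hz
      have h3 : z % (N : ℤ) = z' % (N : ℤ) := by
        have h4 := congrArg (Nat.cast : ℕ → ℤ) hz
        rwa [hmod, hmod] at h4
      exact Int.ModEq.dvd h3.symm
    have e1 := fr_inj (l := l) hb hD hK (fun j => abs_le.mpr (hκ j).1)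
      (fun j => abs_le.mpr (hμ j).1) (h2 _ _ h.1)
    have e2 := fr_inj (l := l) hb hD hK (fun j => abs_le.mpr (hκ j).2)
      (fun j => abs_le.mpr (hμ j).2) (h2 _ _ h.2)
    funext j
    exact Prod.ext (congrFun e1 j) (congrFun e2 j)
  rw [← sum_image (f := fun x : ℕ × ℕ => ‖F2 P N (x.1 : ℤ) (x.2 : ℤ)‖ ^ 4) hinj]
  apply sum_le_sum_of_subset_of_nonneg
  · intro x hx
    rw [mem_image] at hx
    obtain ⟨κ, -, rfl⟩ := hx
    rw [mem_product, mem_range, mem_range]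
    constructor
    · have := Int.emod_lt_of_pos (fr b K q r' fun j => (κ j).1) hNz
      rw [← hmod] at this
      exact_mod_cast this
    · have := Int.emod_lt_of_pos (fr b K q r' fun j => (κ j).2) hNz
      rw [← hmod] at this
      exact_mod_cast this
  · intro x _ _
    positivity

/-! ### The Riesz product -/

section Riesz

variable {D : ℕ} {T : ℤ → ℤ → ℂ}

/-- The coefficients of one factor. -/
noncomputable def cf (T : ℤ → ℤ → ℂ) (δ : ℝ) (x : ℤ × ℤ) : ℂ :=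
  if x = 0 then 1 else (δ : ℂ) * T x.1 x.2

lemma factor (hT0 : T 0 0 = 0) {f : ℝ → ℝ → ℝ}
    (hf : ∀ y y', (f y y' : ℂ) = ∑ h ∈ Icc (-(D : ℤ)) D, ∑ h' ∈ Icc (-(D : ℤ)) D,
      T h h' * e (h * y + h' * y')) (δ y y' : ℝ) :
    ((1 + δ * f y y' : ℝ) : ℂ) = ∑ x ∈ Icc (-(D : ℤ)) D ×ˢ Icc (-(D : ℤ)) D,
      cf T δ x * e (x.1 * y + x.2 * y') := by
  have h0 : (0 : ℤ × ℤ) ∈ Icc (-(D : ℤ)) D ×ˢ Icc (-(D : ℤ)) D := by simp
  have h1 : ∀ x ∈ Icc (-(D : ℤ)) D ×ˢ Icc (-(D : ℤ)) D, cf T δ x * e (x.1 * y + x.2 * y') =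
      (if x = 0 then 1 else 0) + (δ : ℂ) * (T x.1 x.2 * e (x.1 * y + x.2 * y')) := by
    intro x _
    unfold cf
    by_cases hx : x = 0
    · subst hx
      simp [hT0, e_zero]
    · rw [if_neg hx, if_neg hx]
      ring
  rw [sum_congr rfl h1, sum_add_distrib, sum_ite_eq' _ (0 : ℤ × ℤ), if_pos h0, ← mul_sum,
    sum_product, ← hf]
  push_cast
  ring

lemma norm_cf_rpow (hT0 : T 0 0 = 0) {δ W : ℝ} (hδ : 0 ≤ δ)
    (hW : ∑ h ∈ Icc (-(D : ℤ)) D, ∑ h' ∈ Icc (-(D : ℤ)) D, ‖T h h'‖ ^ (4 / 3 : ℝ) ≤ W) :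
    ∑ x ∈ Icc (-(D : ℤ)) D ×ˢ Icc (-(D : ℤ)) D, ‖cf T δ x‖ ^ (4 / 3 : ℝ) ≤
      1 + δ ^ (4 / 3 : ℝ) * W := by
  have h0 : (0 : ℤ × ℤ) ∈ Icc (-(D : ℤ)) D ×ˢ Icc (-(D : ℤ)) D := by simp
  have h1 : ∀ x ∈ Icc (-(D : ℤ)) D ×ˢ Icc (-(D : ℤ)) D, ‖cf T δ x‖ ^ (4 / 3 : ℝ) =
      (if x = 0 then 1 else 0) + δ ^ (4 / 3 : ℝ) * ‖T x.1 x.2‖ ^ (4 / 3 : ℝ) := by
    intro x _
    unfold cf
    by_cases hx : x = 0
    · subst hx
      simp [hT0]
    · rw [if_neg hx, if_neg hx, norm_mul, Complex.norm_real, Real.norm_of_nonneg hδ,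
        Real.mul_rpow hδ (norm_nonneg _), zero_add]
  rw [sum_congr rfl h1, sum_add_distrib, sum_ite_eq' _ (0 : ℤ × ℤ), if_pos h0, ← mul_sum,
    sum_product]
  have := mul_le_mul_of_nonneg_left hW (Real.rpow_nonneg hδ (4 / 3 : ℝ))
  linarith

/-- The expansion of the Riesz product. -/
lemma expand (hT0 : T 0 0 = 0) {f : ℝ → ℝ → ℝ}
    (hf : ∀ y y', (f y y' : ℂ) = ∑ h ∈ Icc (-(D : ℤ)) D, ∑ h' ∈ Icc (-(D : ℤ)) D,
      T h h' * e (h * y + h' * y')) {b K q r' m l : ℕ} (hb : 2 ≤ b) (hK : r' + q * m ≤ K)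
    (δ : ℝ) (p : ℕ × ℕ) :
    ((∏ j : Fin m, (1 + δ * f ((p.1 + p.2 : ℝ) / (b : ℝ) ^ (r' + q * ((j : ℕ) + 1) + l))
        ((p.1 : ℝ) / (b : ℝ) ^ (r' + q * ((j : ℕ) + 1) + l))) : ℝ) : ℂ) =
      ∑ κ ∈ Fintype.piFinset (fun _ : Fin m => Icc (-(D : ℤ)) D ×ˢ Icc (-(D : ℤ)) D),
        (∏ j, cf T δ (κ j)) * ee (b ^ (K + l)) ((fr b K q r' fun j => (κ j).1) * (p.1 + p.2) +
          (fr b K q r' fun j => (κ j).2) * p.1) := by
  have hb0 : (b : ℝ) ≠ 0 := by positivity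
  rw [Complex.ofReal_prod]
  simp only [factor hT0 hf]
  rw [Finset.prod_univ_sum]
  refine sum_congr rfl fun κ _ => ?_
  rw [prod_mul_distrib, ← e_sum, ee_eq]
  congr 2
  unfold fr
  push_cast
  rw [sum_mul, sum_mul, ← sum_add_distrib, sum_div]
  refine sum_congr rfl fun j _ => ?_
  have h1 : r' + q * ((j : ℕ) + 1) ≤ K := by
    have h2 : q * ((j : ℕ) + 1) ≤ q * m := Nat.mul_le_mul_left q j.2
    omega
  have h3 : (b : ℝ) ^ (K + l) = (b : ℝ) ^ (K - (r' + q * ((j : ℕ) + 1))) *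
      (b : ℝ) ^ (r' + q * ((j : ℕ) + 1) + l) := by
    rw [← pow_add]
    congr 1
    omega
  rw [h3]
  field_simp

/-- Riesz products and the energy: the enumerated form. -/
theorem rb {b : ℕ} (hb : 2 ≤ b) (l q : ℕ) (hD : 2 * D < b ^ q) (hT0 : T 0 0 = 0)
    {f : ℝ → ℝ → ℝ}
    (hf : ∀ y y', (f y y' : ℂ) = ∑ h ∈ Icc (-(D : ℤ)) D, ∑ h' ∈ Icc (-(D : ℤ)) D,
      T h h' * e (h * y + h' * y')) (hf1 : ∀ y y', |f y y'| ≤ 1) {W : ℝ}
    (hW : ∑ h ∈ Icc (-(D : ℤ)) D, ∑ h' ∈ Icc (-(D : ℤ)) D, ‖T h h'‖ ^ (4 / 3 : ℝ) ≤ W)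
    {K r' m : ℕ} (hK : r' + q * m ≤ K) {B : Finset ℕ} {P : Finset (ℕ × ℕ)}
    (hB : B ⊆ range (b ^ K)) (hP : P ⊆ B ×ˢ B) {δ : ℝ} (hδ0 : 0 ≤ δ) (hδ1 : δ ≤ 1 / 2) {X : ℝ}
    (hX : ∀ p ∈ P, X ≤ ∑ j ∈ range m, f ((p.1 + p.2 : ℝ) / (b : ℝ) ^ (r' + q * (j + 1) + l))
        ((p.1 : ℝ) / (b : ℝ) ^ (r' + q * (j + 1) + l))) :
    #P * Real.exp (δ * X - δ ^ 2 * m) ≤ (1 + δ ^ (4 / 3 : ℝ) * W) ^ (3 / 4 * m : ℝ) *
      (8 * ((b : ℝ) ^ (K + l)) ^ 2 * (∑ n ∈ range (2 * b ^ K), (r B n : ℝ) ^ 2) ^ 2) ^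
        (1 / 4 : ℝ) := by
  set N : ℕ := b ^ (K + l) with hN
  have hN0 : 0 < N := by positivity
  have hW0 : 0 ≤ W := le_trans (sum_nonneg fun _ _ => sum_nonneg fun _ _ =>
    Real.rpow_nonneg (norm_nonneg _) _) hW
  set R : ℕ × ℕ → ℝ := fun p => ∏ j : Fin m,
    (1 + δ * f ((p.1 + p.2 : ℝ) / (b : ℝ) ^ (r' + q * ((j : ℕ) + 1) + l))
        ((p.1 : ℝ) / (b : ℝ) ^ (r' + q * ((j : ℕ) + 1) + l))) with hR
  -- lower bound
  have h1 : ∀ p ∈ P, Real.exp (δ * X - δ ^ 2 * m) ≤ R p := by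
    intro p hp
    have h2 := hX p hp
    rw [Finset.sum_range] at h2
    have h3 : Real.exp (∑ j : Fin m,
        (δ * f ((p.1 + p.2 : ℝ) / (b : ℝ) ^ (r' + q * ((j : ℕ) + 1) + l))
          ((p.1 : ℝ) / (b : ℝ) ^ (r' + q * ((j : ℕ) + 1) + l)) - δ ^ 2)) ≤ R p := by
      rw [Real.exp_sum, hR]
      refine prod_le_prod (fun j _ => (Real.exp_pos _).le) fun j _ => ?_
      set y := f ((p.1 + p.2 : ℝ) / (b : ℝ) ^ (r' + q * ((j : ℕ) + 1) + l))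
          ((p.1 : ℝ) / (b : ℝ) ^ (r' + q * ((j : ℕ) + 1) + l)) with hy
      have h4 : |y| ≤ 1 := hf1 _ _
      have h5 : |δ * y| ≤ 1 / 2 := by
        rw [abs_mul, abs_of_nonneg hδ0]
        calc δ * |y| ≤ 1 / 2 * 1 := mul_le_mul hδ1 h4 (abs_nonneg _) (by norm_num)
          _ = 1 / 2 := by norm_num
      refine le_trans (Real.exp_le_exp.mpr ?_) (Pool.Agent.Helper18.SC.exp_le h5)
      have h6 : y ^ 2 ≤ 1 := by rw [← sq_abs]; exact pow_le_one₀ (abs_nonneg _) h4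
      have h7 : (δ * y) ^ 2 ≤ δ ^ 2 := by
        rw [mul_pow]
        exact mul_le_of_le_one_right (sq_nonneg _) h6
      linarith
    refine le_trans (Real.exp_le_exp.mpr ?_) h3
    rw [sum_sub_distrib, ← mul_sum]
    simp only [sum_const, card_univ, Fintype.card_fin, nsmul_eq_mul]
    have := mul_le_mul_of_nonneg_left h2 hδ0
    linarith
  have h8 : #P * Real.exp (δ * X - δ ^ 2 * m) ≤ ∑ p ∈ P, R p := by
    rw [← nsmul_eq_mul]
    exact card_nsmul_le_sum P R _ h1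
  -- expansion
  have h9 : ((∑ p ∈ P, R p : ℝ) : ℂ) =
      ∑ κ ∈ Fintype.piFinset (fun _ : Fin m => Icc (-(D : ℤ)) D ×ˢ Icc (-(D : ℤ)) D),
        (∏ j, cf T δ (κ j)) * F2 P N (fr b K q r' fun j => (κ j).1)
          (fr b K q r' fun j => (κ j).2) := by
    rw [Complex.ofReal_sum]
    simp only [hR]
    rw [sum_congr rfl fun p _ => expand (l := l) hT0 hf hb hK δ p, sum_comm]
    refine sum_congr rfl fun κ _ => ?_
    unfold F2
    rw [mul_sum]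
  have h10 : ∑ p ∈ P, R p ≤
      ∑ κ ∈ Fintype.piFinset (fun _ : Fin m => Icc (-(D : ℤ)) D ×ˢ Icc (-(D : ℤ)) D),
        ‖∏ j, cf T δ (κ j)‖ * ‖F2 P N (fr b K q r' fun j => (κ j).1)
          (fr b K q r' fun j => (κ j).2)‖ := by
    calc ∑ p ∈ P, R p ≤ ‖((∑ p ∈ P, R p : ℝ) : ℂ)‖ := by
          rw [Complex.norm_real]
          exact le_abs_self _
      _ ≤ _ := by
          rw [h9]
          refine (norm_sum_le _ _).trans (le_of_eq (sum_congr rfl fun κ _ => norm_mul _ _))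
  have hpq : Real.HolderConjugate (4 / 3 : ℝ) 4 := by
    rw [Real.holderConjugate_iff]
    norm_num
  have h11 := Real.inner_le_Lp_mul_Lq_of_nonneg
    (Fintype.piFinset (fun _ : Fin m => Icc (-(D : ℤ)) D ×ˢ Icc (-(D : ℤ)) D))
    (f := fun κ => ‖∏ j, cf T δ (κ j)‖)
    (g := fun κ => ‖F2 P N (fr b K q r' fun j => (κ j).1) (fr b K q r' fun j => (κ j).2)‖)
    hpq (fun _ _ => norm_nonneg _) (fun _ _ => norm_nonneg _)
  -- the coefficients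
  have h12 : ∑ κ ∈ Fintype.piFinset (fun _ : Fin m => Icc (-(D : ℤ)) D ×ˢ Icc (-(D : ℤ)) D),
      ‖∏ j, cf T δ (κ j)‖ ^ (4 / 3 : ℝ) ≤ (1 + δ ^ (4 / 3 : ℝ) * W) ^ m := by
    have e1 : ∀ κ ∈ Fintype.piFinset (fun _ : Fin m => Icc (-(D : ℤ)) D ×ˢ Icc (-(D : ℤ)) D),
        ‖∏ j, cf T δ (κ j)‖ ^ (4 / 3 : ℝ) = ∏ j, ‖cf T δ (κ j)‖ ^ (4 / 3 : ℝ) := by
      intro κ _
      rw [norm_prod, Real.finsetProd_rpow _ _ fun j _ => norm_nonneg _]
    rw [sum_congr rfl e1, ← Finset.prod_univ_sum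
      (fun _ : Fin m => Icc (-(D : ℤ)) D ×ˢ Icc (-(D : ℤ)) D)
      (fun _ x => ‖cf T δ x‖ ^ (4 / 3 : ℝ)), prod_const, card_univ, Fintype.card_fin]
    exact pow_le_pow_left₀ (sum_nonneg fun _ _ => Real.rpow_nonneg (norm_nonneg _) _)
      (norm_cf_rpow hT0 hδ0 hW) m
  -- the fourth moment
  have hBN : B ⊆ range N := by
    refine hB.trans ?_
    rw [range_subset_range]
    exact Nat.pow_le_pow_right (by omega) (by omega)
  have h13 : ∑ κ ∈ Fintype.piFinset (fun _ : Fin m => Icc (-(D : ℤ)) D ×ˢ Icc (-(D : ℤ)) D),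
      ‖F2 P N (fr b K q r' fun j => (κ j).1) (fr b K q r' fun j => (κ j).2)‖ ^ (4 : ℝ) ≤
      8 * ((b : ℝ) ^ (K + l)) ^ 2 * (∑ n ∈ range (2 * b ^ K), (r B n : ℝ) ^ 2) ^ 2 := by
    have e1 := sum_freq (l := l) hb hD hK P
    have e2 := fourth2 hN0 hBN hP
    have e3 : ∑ n ∈ range (2 * N), (r B n : ℝ) ^ 2 = ∑ n ∈ range (2 * b ^ K), (r B n : ℝ) ^ 2 := by
      apply sum_r_sq_eq (fun a ha => mem_range.mp (hB ha))
      exact Nat.mul_le_mul_left 2 (Nat.pow_le_pow_right (by omega) (by omega))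
    rw [e3] at e2
    have e4 : ∀ z : ℂ, ‖z‖ ^ (4 : ℝ) = ‖z‖ ^ 4 := fun z => by
      rw [← Real.rpow_natCast]
      norm_num
    simp only [e4]
    refine e1.trans (e2.trans (le_of_eq ?_))
    rw [hN]
    push_cast
    ring
  have hA0 : 0 ≤ 1 + δ ^ (4 / 3 : ℝ) * W := by
    have := mul_nonneg (Real.rpow_nonneg hδ0 (4 / 3 : ℝ)) hW0
    linarith
  refine h8.trans (h10.trans (h11.trans ?_))
  have e5 : (1 + δ ^ (4 / 3 : ℝ) * W) ^ (3 / 4 * m : ℝ) =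
      ((1 + δ ^ (4 / 3 : ℝ) * W) ^ m) ^ (1 / (4 / 3 : ℝ)) := by
    rw [← Real.rpow_natCast, ← Real.rpow_mul hA0]
    congr 1
    ring
  rw [e5]
  refine mul_le_mul ?_ ?_ (Real.rpow_nonneg (sum_nonneg fun _ _ =>
    Real.rpow_nonneg (norm_nonneg _) _) _) (Real.rpow_nonneg (pow_nonneg hA0 m) _)
  · exact Real.rpow_le_rpow (sum_nonneg fun _ _ => Real.rpow_nonneg (norm_nonneg _) _) h12
      (by norm_num)
  · exact Real.rpow_le_rpow (sum_nonneg fun _ _ => Real.rpow_nonneg (norm_nonneg _) _) h13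
      (by norm_num)

end Riesz

end Pool.Agent.Helper99.FP
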